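import Pool.Agent.Helper5.TS.Proj

/-! Formula size of SAT restricted to one length, and of sets with few words. -/

set_option autoImplicit false

namespace Pool.Agent.Helper5.TS

open Pool.Agent.Helper72

lemma arith_big : ∀ K : ℕ, 10 ≤ K →
    18 * K ^ 2 + 153 * K + 90 ≤ 126 * 2 ^ K ∧ 1800 * K ≤ 126 * 2 ^ K := by
  intro K hK
  induction K, hK using Nat.le_induction with
  | base => norm_num
  | succ K hK ih =>
    obtain ⟨h1, h2⟩ := ih
    rw [pow_succ 2 K]
    constructor
    · have : 18 * (K + 1) ^ 2 + 153 * (K + 1) + 90 ≤ 2 * (18 * K ^ 2 + 153 * K + 90) := by nlinarith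
      omega
    · omega

/-- choice of the parameters -/
lemma params {n : ℕ} (hn : 300000 ≤ n) (h3 : 3 ∣ n) : ∃ K k p : ℕ, 10 ≤ K ∧ K ≤ Nat.log 2 n ∧
    19 * n ≤ 1800 * K * p ∧ n < 252 * 2 ^ K ∧
    n = 3 + (lenT K + (3 + ((12 + 3 * k) + lenC p K))) := by
  obtain ⟨K, hK1, hK2, hK3⟩ : ∃ K, 126 * 2 ^ K ≤ n ∧ n < 252 * 2 ^ K ∧ K ≤ Nat.log 2 n := by
    refine ⟨Nat.log 2 (n / 126), ?_, ?_, Nat.log_mono_right (Nat.div_le_self _ _)⟩
    · have : 2 ^ Nat.log 2 (n / 126) ≤ n / 126 := Nat.pow_log_le_self 2 (by omega)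
      omega
    · have : n / 126 < 2 ^ (Nat.log 2 (n / 126) + 1) := Nat.lt_pow_succ_log_self (by norm_num) _
      rw [pow_succ] at this
      omega
  have hK10 : 10 ≤ K := by
    by_contra hcon
    have : 2 ^ K ≤ 2 ^ 10 := Nat.pow_le_pow_right (by norm_num) (by omega)
    norm_num at this
    omega
  obtain ⟨a1, a2⟩ := arith_big K hK10
  set p := n / (90 * K) with hp
  have hp1 : 90 * K * p ≤ n := Nat.mul_div_le n (90 * K)
  have hp2 : n < 90 * K * (p + 1) := Nat.lt_mul_div_succ n (by positivity)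
  have hL := lenT_le K
  have hLd := lenT_dvd K
  have hC := lenC_le p K
  have hCd := lenC_dvd p K
  refine ⟨K, (n - 18 - lenT K - lenC p K) / 3, p, hK10, hK3, ?_, hK2, ?_⟩
  · have : 20 * (90 * K) ≤ n := by omega
    nlinarith
  · have hC' : 3 * lenC p K ≤ 36 + 153 * K + 18 * K ^ 2 + n := by nlinarith
    omega

/-- Formulas over all binary gates for SAT at length `n`: size at least `n² / (10⁵ log n)`. -/
theorem sat_formula {S : Set (List Bool)} {n : ℕ} (hn : 300000 ≤ n) (h3 : 3 ∣ n)
    (hS : ∀ z : List Bool, z.length = n → (z ∈ S ↔ z ∈ SAT))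
    (F : Fm ℕ) (hF : F.Decides S n) : n ^ 2 ≤ 10 ^ 5 * (F.size * Nat.log 2 n) := by
  obtain ⟨K, k, p, hK10, hK3, h1, hK2, hk⟩ := params hn h3
  have hc := formula_count (by omega) hS hk F hF
  have h2 : 19 * n * n ≤ (1800 * K * p) * (252 * 2 ^ K) := Nat.mul_le_mul h1 hK2.le
  have h4 : (1800 * K * p) * (252 * 2 ^ K) ≤ 1814400 * (F.size * K) := by
    calc (1800 * K * p) * (252 * 2 ^ K) = 453600 * K * (p * 2 ^ K) := by ring
      _ ≤ 453600 * K * (4 * F.size) := Nat.mul_le_mul_left _ hc
      _ = 1814400 * (F.size * K) := by ring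
  have h5 : F.size * K ≤ F.size * Nat.log 2 n := Nat.mul_le_mul_left _ hK3
  have h6 : n ^ 2 = n * n := by ring
  have h7 : 19 * n * n = 19 * (n * n) := by ring
  rw [h6]
  norm_num
  omega

/-- the formula `x = w` -/
def eqW : List Bool → ℕ → Fm ℕ
  | [], _ => .const true
  | b :: w, i => .gate (fun x y => (x == b) && y) (.var i) (eqW w (i + 1))

lemma eqW_size : ∀ (w : List Bool) (i : ℕ), (eqW w i).size = w.length
  | [], _ => rfl
  | b :: w, i => by simp only [eqW, Fm.size, eqW_size w, List.length_cons]; ring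

lemma eqW_eval (x : ℕ → Bool) : ∀ (w : List Bool) (i : ℕ), (eqW w i).eval x = true ↔
    ∀ j (h : j < w.length), x (i + j) = w[j]
  | [], _ => by simp [eqW, Fm.eval]
  | b :: w, i => by
    simp only [eqW, Fm.eval, Bool.and_eq_true, beq_iff_eq, eqW_eval x w (i + 1)]
    constructor
    · rintro ⟨h1, h2⟩ j hj
      cases j with
      | zero => simpa using h1
      | succ j =>
        have := h2 j (by simpa using hj)
        rw [show i + (j + 1) = i + 1 + j by ring]
        simpa using this
    · intro h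
      refine ⟨h 0 (Nat.zero_lt_succ _), fun j hj => ?_⟩
      have := h (j + 1) (by simpa using hj)
      rw [show i + 1 + j = i + (j + 1) by ring]
      simpa using this

/-- the disjunction of the formulas `x = w` -/
def dnf : List (List Bool) → Fm ℕ
  | [] => .const false
  | w :: l => .gate (fun x y => x || y) (eqW w 0) (dnf l)

lemma dnf_eval (x : ℕ → Bool) : ∀ l : List (List Bool), (dnf l).eval x = true ↔
    ∃ w ∈ l, (eqW w 0).eval x = true
  | [] => by simp [dnf, Fm.eval]
  | w :: l => by simp [dnf, Fm.eval, dnf_eval x l]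

lemma dnf_size (n : ℕ) : ∀ l : List (List Bool), (∀ w ∈ l, w.length = n) →
    (dnf l).size = l.length * n
  | [], _ => by simp [dnf, Fm.size]
  | w :: l, h => by
    simp only [dnf, Fm.size, eqW_size, List.length_cons]
    rw [dnf_size n l (fun w hw => h w (List.mem_cons_of_mem _ hw)), h w List.mem_cons_self]
    ring

/-- sets with few words have small formulas -/
theorem few_formula (S : Set (List Bool)) (n N : ℕ)
    (hS : {w : List Bool | w ∈ S ∧ w.length = n}.ncard ≤ N) :
    ∃ F : Fm ℕ, F.Decides S n ∧ F.size ≤ N * n := by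
  classical
  have hfin : {w : List Bool | w ∈ S ∧ w.length = n}.Finite :=
    (List.finite_length_eq Bool n).subset fun _ hw => hw.2
  have hmem : ∀ w, w ∈ hfin.toFinset.toList ↔ w ∈ S ∧ w.length = n := by
    intro w
    rw [Finset.mem_toList, Set.Finite.mem_toFinset]
    rfl
  refine ⟨dnf hfin.toFinset.toList, fun w hw => ?_, ?_⟩
  · rw [dnf_eval]
    constructor
    · rintro ⟨w', hw', he⟩
      rw [hmem] at hw'
      rw [eqW_eval] at he
      have : w = w' := by
        refine List.ext_getElem (by omega) fun j h1 h2 => ?_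
        have := he j h2
        rw [zero_add, List.getD_eq_getElem _ _ h1] at this
        exact this
      rw [this]
      exact hw'.1
    · intro h
      refine ⟨w, (hmem w).2 ⟨h, hw⟩, ?_⟩
      rw [eqW_eval]
      intro j hj
      rw [zero_add, List.getD_eq_getElem _ _ hj]
  · rw [dnf_size n _ (fun w hw => ((hmem w).1 hw).2), Finset.length_toList,
      ← Set.ncard_eq_toFinset_card _ hfin]
    exact Nat.mul_le_mul_right _ hS

end Pool.Agent.Helper5.TS
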