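import Pool.Agent.Helper5.TS.NechBP
import Pool.Agent.Helper5.TS.FmCount

/-! Branching programs for SAT restricted to one length. -/

set_option autoImplicit false

namespace Pool.Agent.Helper5.TS

open Pool.Agent.Helper72

/-- substitution of constants and literals -/
def BP.sub {α P : Type} {m : ℕ} (p0 : P) (σ : α → Sym P) (B : BP α m) : BP P m where
  lab := fun i => match σ (B.lab i) with
    | .c _ => p0
    | .l p _ => p
  nxt := fun i b => match σ (B.lab i) with
    | .c b0 => B.nxt i b0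
    | .l _ n => B.nxt i (xor n b)
  start := B.start

lemma BP.step_sub {α P : Type} {m : ℕ} (p0 : P) (σ : α → Sym P) (B : BP α m) (θ : P → Bool) :
    (B.sub p0 σ).step θ = B.step (fun a => (σ a).eval θ) := by
  funext s
  cases s with
  | inl b => rfl
  | inr i =>
    simp only [BP.step, BP.sub]
    cases h : σ (B.lab i) <;> simp [Sym.eval]

/-- the selectors have few nodes together -/
lemma sum_nodes {α : Type} {m : ℕ} (B : BP α m) (s : Finset ℕ) (V : ℕ → Set α)
    (hV : ∀ i ∈ s, ∀ j ∈ s, i ≠ j → Disjoint (V i) (V j)) :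
    ∑ i ∈ s, Fintype.card (B.VN (V i)) ≤ m := by
  classical
  have h1 : ∀ i, Fintype.card (B.VN (V i)) =
      (Finset.univ.filter (fun k : Fin m => B.lab k ∈ V i)).card := by
    intro i
    rw [← Fintype.card_subtype]
    exact Fintype.card_congr (Equiv.refl _)
  simp only [h1]
  rw [← Finset.card_biUnion]
  · refine (Finset.card_le_univ _).trans ?_
    rw [Fintype.card_fin]
  · intro i hi j hj hij
    rw [Function.onFun, Finset.disjoint_left]
    intro k hk hk'
    simp only [Finset.mem_filter, Finset.mem_univ, true_and] at hk hk'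
    exact Set.disjoint_left.1 (hV i hi j hj hij) hk hk'

/-- the input which chooses the place given by `v` in the selector -/
def selX (v : ℕ → Bool) : ℕ ⊕ (ℕ × ℕ) → Bool
  | .inl _ => false
  | .inr ij => v ij.2

/-- the input which has the table `W` and nothing in the selectors -/
def tabX {K : ℕ} (W : Fin (2 ^ K) → Bool) : ℕ ⊕ (ℕ × ℕ) → Bool
  | .inl r => if h : r < 2 ^ K then W ⟨r, h⟩ else false
  | .inr _ => false

lemma look_mix {K p i : ℕ} (hi : i < p) (W : Fin (2 ^ K) → Bool) (a : Fin (2 ^ K))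
    {v : ℕ → Bool} (hv : idx v K = a.1) :
    look K p (mix (blk i) (selX v) (tabX W)) = W a := by
  classical
  rw [look]
  have h1 : ∀ j, (fun i' => mix (blk i) (selX v) (tabX W) (Sum.inr (i', j))) =
      fun i' => if i' = i then v j else false := by
    intro j
    funext i'
    by_cases h : i' = i
    · subst h
      have : (Sum.inr (i', j) : ℕ ⊕ (ℕ × ℕ)) ∈ blk i' := ⟨j, rfl⟩
      simp [mix, this, selX]
    · have : (Sum.inr (i', j) : ℕ ⊕ (ℕ × ℕ)) ∉ blk i := by
        rintro ⟨j', hj'⟩
        simp only [Sum.inr.injEq, Prod.mk.injEq] at hj'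
        exact h hj'.1
      simp [mix, this, h, tabX]
  have h2 : ∀ r, (Sum.inl r : ℕ ⊕ (ℕ × ℕ)) ∉ blk i := by
    rintro r ⟨j', hj'⟩
    simp at hj'
  simp only [h1, orv_single i p _ hi]
  rw [show (fun j => v j) = v from rfl, hv]
  simp [mix, h2, tabX]

/-- Branching programs for SAT restricted to one length. -/
theorem bp_count {S : Set (List Bool)} {n K k p m : ℕ}
    (hS : ∀ z : List Bool, z.length = n → (z ∈ S ↔ z ∈ SAT))
    (hn : n = 3 + (lenT K + (3 + ((12 + 3 * k) + lenC p K))))
    (B : BP ℕ m) (hB : B.Decides S n) : ∃ s : ℕ → ℕ,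
      (∀ i < p, 2 ^ 2 ^ K ≤ (s i + 3) ^ (2 * s i + 1)) ∧ ∑ i ∈ Finset.range p, s i ≤ m := by
  classical
  obtain ⟨L, hL⟩ := proj_psi K k p
  set B' : BP (ℕ ⊕ (ℕ × ℕ)) m := B.sub (.inl 0) (fun i => L.getD i (.c false)) with hB'
  have hev : ∀ θ b, B'.Outputs θ b ↔ look K p θ = b := by
    intro θ b
    have h1 : ∀ b, B'.Outputs θ b ↔ B.Outputs (fun i => ((psi K k p θ).code).getD i false) b := by
      intro b
      unfold BP.Outputs
      rw [hB', BP.step_sub]
      have : (fun a => (L.getD a (.c false)).eval θ) =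
          (fun i => ((psi K k p θ).code).getD i false) := by
        funext i
        rw [hL θ]
        simp only [List.getD_eq_getElem?_getD, List.getElem?_map]
        cases L[i]? <;> simp [Sym.eval]
      rw [this]
      rfl
    have h2 : (psi K k p θ).code.length = n := by rw [length_psi, hn]
    obtain ⟨b', hb1, hb2⟩ := hB _ h2
    rw [hS _ h2, psi_sat] at hb2
    have hb3 : look K p θ = b' := by
      cases ha : b' <;> cases hc : look K p θ <;> simp_all
    rw [h1]
    constructor
    · rintro ⟨t, ht⟩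
      obtain ⟨t', ht'⟩ := hb1
      have stab : ∀ (b : Bool) (x : ℕ → Bool) (t r : ℕ), (B.step x)^[t] B.start = .inl b →
          (B.step x)^[r + t] B.start = .inl b := by
        intro b x t r h
        rw [Function.iterate_add_apply, h]
        induction r with
        | zero => rfl
        | succ r ih => rw [Function.iterate_succ_apply]; exact ih
      have e1 := stab _ _ _ t' ht
      have e2 := stab _ _ _ t ht'
      rw [add_comm] at e2
      rw [e1] at e2
      rw [hb3]
      exact (Sum.inl.inj e2).symm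
    · intro h
      rw [← h, hb3]
      exact hb1
  refine ⟨fun i => Fintype.card (B'.VN (blk i)), fun i hi => ?_, ?_⟩
  · refine many_nodes (blk i) B' (2 ^ K) tabX ?_
    intro W W' h
    funext a
    obtain ⟨v, hv⟩ := exists_idx K a.1 a.2
    have h1 := h (selX v) (W a)
    rw [hev, hev, look_mix hi W a hv, look_mix hi W' a hv] at h1
    exact (h1.1 rfl).symm
  · refine sum_nodes B' (Finset.range p) blk ?_
    intro i _ j _ hij
    rw [Set.disjoint_left]
    rintro x ⟨a, rfl⟩ ⟨b, hb⟩
    simp only [Sum.inr.injEq, Prod.mk.injEq] at hb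
    exact hij hb.1

lemma nodes_arith {K s : ℕ} (hK : 2 ≤ K) (h : 2 ^ 2 ^ K ≤ (s + 3) ^ (2 * s + 1)) :
    2 ^ K ≤ K * (2 * s + 1) := by
  by_cases hs : s + 3 ≤ 2 ^ K
  · have h1 : 2 ^ 2 ^ K ≤ 2 ^ (K * (2 * s + 1)) := by
      refine h.trans ?_
      rw [pow_mul]
      exact Nat.pow_le_pow_left hs _
    exact (Nat.pow_le_pow_iff_right (by norm_num)).1 h1
  · have h4 : 2 ^ 2 ≤ 2 ^ K := Nat.pow_le_pow_right (by norm_num) hK
    have h2 : 2 * (2 * s + 1) ≤ K * (2 * s + 1) := Nat.mul_le_mul_right _ hK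
    omega

/-- Branching programs for SAT at length `n`: at least `n² / (10⁵ log² n)` nodes. -/
theorem sat_bp {S : Set (List Bool)} {n m : ℕ} (hn : 300000 ≤ n) (h3 : 3 ∣ n)
    (hS : ∀ z : List Bool, z.length = n → (z ∈ S ↔ z ∈ SAT))
    (B : BP ℕ m) (hB : B.Decides S n) : n ^ 2 ≤ 10 ^ 5 * (m * Nat.log 2 n ^ 2) := by
  obtain ⟨K, k, p, hK10, hK3, h1, hK2, hk⟩ := params hn h3
  obtain ⟨s, hs1, hs2⟩ := bp_count hS hk B hB
  have h5 : p * 2 ^ K ≤ K * (2 * m + p) := by
    calc p * 2 ^ K = ∑ i ∈ Finset.range p, 2 ^ K := by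
          rw [Finset.sum_const, Finset.card_range, smul_eq_mul]
      _ ≤ ∑ i ∈ Finset.range p, K * (2 * s i + 1) :=
          Finset.sum_le_sum fun i hi =>
            nodes_arith (by omega) (hs1 i (Finset.mem_range.1 hi))
      _ = K * (2 * ∑ i ∈ Finset.range p, s i + p) := by
          rw [← Finset.mul_sum, Finset.sum_add_distrib, ← Finset.mul_sum, Finset.sum_const,
            Finset.card_range, smul_eq_mul, mul_one]
      _ ≤ K * (2 * m + p) := Nat.mul_le_mul_left _ (by omega)
  have h6 : 2 * K ≤ 2 ^ K := by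
    have : ∀ k, 2 ≤ k → 2 * k ≤ 2 ^ k := by
      intro k hk
      induction k, hk using Nat.le_induction with
      | base => norm_num
      | succ k hk ih => rw [pow_succ]; omega
    exact this K (by omega)
  have h7 : 2 * (K * p) ≤ p * 2 ^ K := by
    calc 2 * (K * p) = p * (2 * K) := by ring
      _ ≤ p * 2 ^ K := Nat.mul_le_mul_left _ h6
  have h8 : p * 2 ^ K ≤ 4 * (K * m) := by
    have : K * (2 * m + p) = 2 * (K * m) + K * p := by ring
    omega
  have h2 : 19 * n * n ≤ (1800 * K * p) * (252 * 2 ^ K) := Nat.mul_le_mul h1 hK2.le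
  have h4 : (1800 * K * p) * (252 * 2 ^ K) ≤ 1814400 * (m * K ^ 2) := by
    calc (1800 * K * p) * (252 * 2 ^ K) = 453600 * K * (p * 2 ^ K) := by ring
      _ ≤ 453600 * K * (4 * (K * m)) := Nat.mul_le_mul_left _ h8
      _ = 1814400 * (m * K ^ 2) := by ring
  have h9 : m * K ^ 2 ≤ m * Nat.log 2 n ^ 2 :=
    Nat.mul_le_mul_left _ (Nat.pow_le_pow_left hK3 2)
  have h10 : n ^ 2 = n * n := by ring
  have h11 : 19 * n * n = 19 * (n * n) := by ring
  rw [h10]
  norm_num
  omega

end Pool.Agent.Helper5.TS
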