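import Pool.Agent.Helper72.Defs
import Pool.Agent.Helper72.CodeInj

/-! Formulas with long information in both halves. -/

set_option autoImplicit false

namespace Pool.Agent.Helper5.TS

open Pool.Agent.Helper72 Turing Computability

/-- a constant, as a formula -/
def leaf : Bool → BForm
  | true => .disj (.var 0) (.neg (.var 0))
  | false => .conj (.var 0) (.neg (.var 0))

/-- the decision tree of the function `f` on the first `k` variables -/
def tree : ℕ → (ℕ → Bool) → BForm
  | 0, f => leaf (f 0)
  | k + 1, f => .disj (.conj (.var k) (tree k (fun i => f (i + 2 ^ k))))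
      (.conj (.neg (.var k)) (tree k f))

/-- the number coded by the first `k` variables -/
def idx (v : ℕ → Bool) : ℕ → ℕ
  | 0 => 0
  | k + 1 => idx v k + (if v k = true then 2 ^ k else 0)

lemma eval_leaf (v : ℕ → Bool) (b : Bool) : (leaf b).eval v = b := by
  cases b <;> simp [leaf, BForm.eval]

lemma eval_tree (v : ℕ → Bool) : ∀ (k : ℕ) (f : ℕ → Bool), (tree k f).eval v = f (idx v k)
  | 0, f => by simp [tree, eval_leaf, idx]
  | k + 1, f => by
    simp only [tree, BForm.eval, idx, eval_tree v k]
    cases v k <;> simp

lemma idx_congr {v v' : ℕ → Bool} : ∀ {k : ℕ}, (∀ j < k, v j = v' j) → idx v k = idx v' k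
  | 0, _ => rfl
  | k + 1, h => by
    simp only [idx]
    rw [idx_congr (k := k) (fun j hj => h j (by omega)), h k (by omega)]

lemma exists_idx : ∀ (k i : ℕ), i < 2 ^ k → ∃ v, idx v k = i
  | 0, i, h => ⟨fun _ => false, by simp [idx]; omega⟩
  | k + 1, i, h => by
    by_cases hi : i < 2 ^ k
    · obtain ⟨v, hv⟩ := exists_idx k i hi
      refine ⟨fun j => if j = k then false else v j, ?_⟩
      simp only [idx]
      rw [idx_congr (v' := v) (k := k) (fun j hj => by simp [Nat.ne_of_lt hj]), hv]
      simp
    · have h2 : i - 2 ^ k < 2 ^ k := by rw [pow_succ] at h; omega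
      obtain ⟨v, hv⟩ := exists_idx k (i - 2 ^ k) h2
      refine ⟨fun j => if j = k then true else v j, ?_⟩
      simp only [idx]
      rw [idx_congr (v' := v) (k := k) (fun j hj => by simp [Nat.ne_of_lt hj]), hv]
      simp
      omega

lemma idx_lt (v : ℕ → Bool) : ∀ k, idx v k < 2 ^ k
  | 0 => by simp [idx]
  | k + 1 => by
    have := idx_lt v k
    simp only [idx]
    rw [pow_succ]
    split_ifs <;> omega

/-- the length of the code of a decision tree -/
def lenT : ℕ → ℕ
  | 0 => 12
  | k + 1 => 2 * lenT k + 18 + 6 * (encodeNat k).length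

lemma length_var (n : ℕ) : (BForm.var n).code.length = 3 + 3 * (encodeNat n).length := by
  simp only [BForm.code, List.length_append, List.length_cons, List.length_nil,
    List.length_flatMap]
  simp
  ring

lemma length_neg (φ : BForm) : (BForm.neg φ).code.length = 3 + φ.code.length := by
  simp [BForm.code]; ring

lemma length_conj (φ ψ : BForm) :
    (BForm.conj φ ψ).code.length = 3 + (φ.code.length + ψ.code.length) := by
  simp [BForm.code]; ring

lemma length_disj (φ ψ : BForm) :
    (BForm.disj φ ψ).code.length = 3 + (φ.code.length + ψ.code.length) := by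
  simp [BForm.code]; ring

lemma length_leaf (b : Bool) : (leaf b).code.length = 12 := by
  cases b <;> decide

lemma length_tree : ∀ (k : ℕ) (f : ℕ → Bool), (tree k f).code.length = lenT k
  | 0, f => length_leaf _
  | k + 1, f => by
    simp only [tree, length_disj, length_conj, length_neg, length_var, length_tree k, lenT]
    ring

lemma lenT_dvd : ∀ k, 3 ∣ lenT k
  | 0 => by norm_num [lenT]
  | k + 1 => by
    have := lenT_dvd k
    simp only [lenT]
    omega

lemma posNum_length (p : PosNum) : (encodePosNum p).length ≤ (p : ℕ) := by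
  induction p with
  | one => simp [encodePosNum]
  | bit0 p ih =>
    have h1 : 0 < (p : ℕ) := p.cast_pos
    simp only [encodePosNum, List.length_cons, PosNum.cast_bit0]
    omega
  | bit1 p ih =>
    have h1 : 0 < (p : ℕ) := p.cast_pos
    simp only [encodePosNum, List.length_cons, PosNum.cast_bit1]
    omega

lemma encode_length_le (k : ℕ) : (encodeNat k).length ≤ k + 1 := by
  unfold encodeNat
  have h : ∀ m : Num, (encodeNum m).length ≤ (m : ℕ) := by
    intro m
    cases m with
    | zero => simp [encodeNum]
    | pos p => exact posNum_length p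
  have h1 := h (k : Num)
  rw [Num.to_of_nat] at h1
  omega

lemma lenT_le : ∀ k, lenT k + 30 + 6 * k ≤ 42 * 2 ^ k
  | 0 => by norm_num [lenT]
  | k + 1 => by
    have h1 := lenT_le k
    have h2 := encode_length_le k
    simp only [lenT]
    rw [pow_succ]
    omega

/-- padding: `k` negations -/
def pad : ℕ → Bool → BForm
  | 0, b => leaf b
  | k + 1, b => .neg (pad k (!b))

lemma eval_pad (v : ℕ → Bool) : ∀ (k : ℕ) (b : Bool), (pad k b).eval v = b
  | 0, b => eval_leaf v b
  | k + 1, b => by simp [pad, BForm.eval, eval_pad v k]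

lemma length_pad : ∀ (k : ℕ) (b : Bool), (pad k b).code.length = 12 + 3 * k
  | 0, b => length_leaf b
  | k + 1, b => by
    rw [pad, length_neg, length_pad k]; ring

/-- `u` followed by its complement -/
def dbl (K : ℕ) (u : Fin (2 ^ K) → Bool) (i : ℕ) : Bool :=
  if h : i < 2 ^ K then u ⟨i, h⟩
  else if h : i - 2 ^ K < 2 ^ K then !u ⟨i - 2 ^ K, h⟩ else false

/-- the formula comparing `u` and `w` -/
def phi (K k : ℕ) (u w : Fin (2 ^ K) → Bool) : BForm :=
  .conj (tree (K + 1) (dbl K u)) (.conj (pad k true)
    (tree (K + 1) (dbl K (fun i => !w i))))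

lemma eval_phi (K k : ℕ) (u w : Fin (2 ^ K) → Bool) (v : ℕ → Bool) :
    (phi K k u w).eval v =
      (dbl K u (idx v (K + 1)) && dbl K (fun i => !w i) (idx v (K + 1))) := by
  simp [phi, BForm.eval, eval_tree, eval_pad]

/-- the formula of `u` and `w` is satisfiable if and only if `u ≠ w` -/
lemma phi_sat (K k : ℕ) (u w : Fin (2 ^ K) → Bool) : (phi K k u w).code ∈ SAT ↔ u ≠ w := by
  constructor
  · rintro ⟨φ, hφ, v, hv⟩ rfl
    rw [code_injective hφ, eval_phi] at hv
    unfold dbl at hv
    split_ifs at hv <;> simp at hv
  · intro hne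
    obtain ⟨i, hi⟩ := Function.ne_iff.1 hne
    refine ⟨_, rfl, ?_⟩
    by_cases hu : u i = true
    · obtain ⟨v, hv⟩ := exists_idx (K + 1) i.1 (by have := i.2; rw [pow_succ]; omega)
      refine ⟨v, ?_⟩
      rw [eval_phi, hv]
      have hw : w i = false := by
        rw [hu] at hi
        cases h : w i
        · rfl
        · exact absurd h.symm hi
      simp [dbl, hu, hw]
    · obtain ⟨v, hv⟩ := exists_idx (K + 1) (i.1 + 2 ^ K) (by have := i.2; rw [pow_succ]; omega)
      refine ⟨v, ?_⟩
      rw [eval_phi, hv]
      have hu' : u i = false := by simpa using hu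
      have hw : w i = true := by
        rw [hu'] at hi
        cases h : w i
        · exact absurd h.symm hi
        · rfl
      simp [dbl, hu', hw]

/-- the part of the code left of the padding -/
def codeL (K : ℕ) (u : Fin (2 ^ K) → Bool) : List Bool :=
  [true, false, true] ++ ((tree (K + 1) (dbl K u)).code ++ [true, false, true])

/-- the part of the code right of the padding -/
def codeR (K : ℕ) (w : Fin (2 ^ K) → Bool) : List Bool :=
  (tree (K + 1) (dbl K (fun i => !w i))).code

lemma phi_code (K k : ℕ) (u w : Fin (2 ^ K) → Bool) :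
    (phi K k u w).code = codeL K u ++ ((pad k true).code ++ codeR K w) := by
  simp [phi, BForm.code, codeL, codeR]

lemma length_codeL (K : ℕ) (u : Fin (2 ^ K) → Bool) : (codeL K u).length = 6 + lenT (K + 1) := by
  simp [codeL, length_tree]; ring

lemma length_codeR (K : ℕ) (w : Fin (2 ^ K) → Bool) : (codeR K w).length = lenT (K + 1) := by
  simp [codeR, length_tree]

end Pool.Agent.Helper5.TS
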