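import Pool.Agent.Helper5.TS.Cross
import Pool.Agent.Helper5.TS.Form

/-! The counting argument: machines for SAT. -/

set_option autoImplicit false

namespace Pool.Agent.Helper5.TS

open Pool.Agent.Helper72

variable {Γ Q : Type}

/-- words with a common middle part can be pasted together -/
lemma inv_init (M : Machine Γ Q) {A1 A2 P B1 B2 : List Bool} (hA : A1.length = A2.length)
    {j : ℕ} (hj : j ≤ P.length) (hpos : 0 < A1.length + j) :
    Inv ((A1.length + j : ℕ) : ℤ) (M.init (A1 ++ (P ++ B1))) (M.init (A2 ++ (P ++ B2)))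
      (M.init (A1 ++ (P ++ B2))) := by
  have hpos' : (0 : ℤ) < ((A1.length + j : ℕ) : ℤ) := by exact_mod_cast hpos
  refine ⟨fun i hi => ?_, fun i hi => ?_, Or.inl ⟨hpos', hpos', rfl, rfl⟩⟩
  · simp only [Machine.init]
    by_cases h0 : i < 0
    · simp [h0]
    · have h1 : i.toNat < A1.length + j := by omega
      rw [if_neg h0, if_neg h0]
      congr 1
      rw [← List.append_assoc, ← List.append_assoc]
      rw [List.getElem?_append_left (l₁ := A1 ++ P) (l₂ := B2)
        (by rw [List.length_append]; omega),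
        List.getElem?_append_left (l₁ := A1 ++ P) (l₂ := B1) (by rw [List.length_append]; omega)]
  · simp only [Machine.init]
    have h0 : ¬ i < 0 := by omega
    have h1 : A1.length + j ≤ i.toNat := by omega
    rw [if_neg h0, if_neg h0]
    congr 1
    rw [List.getElem?_append_right (l₁ := A1) (l₂ := P ++ B2) (by omega),
      List.getElem?_append_right (l₁ := A2) (l₂ := P ++ B2) (by omega), hA]

/-- the fooling argument -/
lemma no_collision (M : Machine Γ Q) {S : Set (List Bool)} {n T : ℕ} (hM : M.Decides S n T)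
    {A1 A2 P B1 B2 : List Bool} (hA : A1.length = A2.length)
    (l1 : (A1 ++ (P ++ B1)).length = n) (l2 : (A2 ++ (P ++ B2)).length = n)
    (h1 : (A1 ++ (P ++ B1)) ∉ S) (h2 : (A2 ++ (P ++ B2)) ∉ S)
    (h3 : (A1 ++ (P ++ B2)) ∈ S) {j : ℕ} (hj : j ≤ P.length) (hpos : 0 < A1.length + j)
    (hc : cs M ((A1.length + j : ℕ) : ℤ) (M.init (A1 ++ (P ++ B1))) T =
      cs M ((A1.length + j : ℕ) : ℤ) (M.init (A2 ++ (P ++ B2))) T) : False := by
  obtain ⟨r, -, -, hr⟩ := paste M _ (inv_init M (B1 := B1) (B2 := B2) hA hj hpos) hc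
  obtain ⟨b1, e1, f1⟩ := hM _ l1
  obtain ⟨b2, e2, f2⟩ := hM _ l2
  obtain ⟨b3, e3, f3⟩ := hM (A1 ++ (P ++ B2)) (by
    simp only [List.length_append] at l1 l2 ⊢; omega)
  have g1 : b1 = false := by
    cases b1
    · rfl
    · exact absurd (f1.1 rfl) h1
  have g2 : b2 = false := by
    cases b2
    · rfl
    · exact absurd (f2.1 rfl) h2
  have g3 : b3 = true := f3.2 h3
  subst g1 g2 g3
  rcases hr with ⟨-, -, -, hq⟩ | ⟨-, -, -, hq⟩
  · rw [← hq] at e1
    exact Bool.noConfusion (halt_unique M e1 e3)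
  · rw [← hq] at e2
    exact Bool.noConfusion (halt_unique M e2 e3)

/-- The counting argument. -/
theorem count (M : Machine Γ Q) [Fintype Q] {S : Set (List Bool)} {n T K k : ℕ}
    (hS : ∀ z : List Bool, z.length = n → (z ∈ S ↔ z ∈ SAT))
    (hn : n = 6 + lenT (K + 1) + ((12 + 3 * k) + lenT (K + 1)))
    (hM : M.Decides S n T) :
    2 ^ 2 ^ K ≤ (12 + 3 * k) * (Fintype.card Q + 1) ^ (T / (12 + 3 * k)) := by
  classical
  by_contra hcon
  push Not at hcon
  set P := 12 + 3 * k with hP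
  set ℓ := T / P with hℓ
  set z : (Fin (2 ^ K) → Bool) → (Fin (2 ^ K) → Bool) → List Bool :=
    fun u w => codeL K u ++ ((pad k true).code ++ codeR K w) with hz
  have hlen : ∀ u w, (z u w).length = n := by
    intro u w
    simp only [hz, List.length_append, length_codeL, length_codeR, length_pad, hn]
    rw [hP]
  have hmem : ∀ u w, z u w ∈ S ↔ u ≠ w := by
    intro u w
    rw [hS _ (hlen u w), hz]
    simp only
    rw [← phi_code, phi_sat]
  set a := 6 + lenT (K + 1) with ha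
  have hPpos : 0 < P := by omega
  have hex : ∀ u, ∃ j : Fin P, (cs M ((a + j.1 : ℕ) : ℤ) (M.init (z u u)) T).length ≤ ℓ := by
    intro u
    have hsum := sum_cs_le M (Finset.univ.image (fun j : Fin P => ((a + j.1 : ℕ) : ℤ))) T
      (M.init (z u u))
    rw [Finset.sum_image (by
      intro x _ y _ hxy
      simp only [Nat.cast_inj] at hxy
      ext; omega)] at hsum
    by_contra hno
    push Not at hno
    have h1 : ∑ j : Fin P, (ℓ + 1) ≤
        ∑ j : Fin P, (cs M ((a + j.1 : ℕ) : ℤ) (M.init (z u u)) T).length :=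
      Finset.sum_le_sum fun j _ => hno j
    rw [Finset.sum_const, Finset.card_univ, Fintype.card_fin, smul_eq_mul] at h1
    have h2 : T < P * (ℓ + 1) := by
      rw [hℓ]
      exact Nat.lt_mul_div_succ T hPpos
    omega
  choose j hj using hex
  let F : (Fin (2 ^ K) → Bool) → Fin P × (Fin ℓ → Option Q) :=
    fun u => (j u, fun i => (cs M ((a + (j u).1 : ℕ) : ℤ) (M.init (z u u)) T)[i.1]?)
  obtain ⟨u, w, huw, hF⟩ := Fintype.exists_ne_map_eq_of_card_lt F (by
    simp only [Fintype.card_prod, Fintype.card_fin, Fintype.card_pi, Finset.prod_const,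
      Fintype.card_option, Finset.card_univ, Fintype.card_bool]
    exact hcon)
  simp only [F, Prod.mk.injEq] at hF
  obtain ⟨hF1, hF2⟩ := hF
  have hcs : cs M ((a + (j u).1 : ℕ) : ℤ) (M.init (z u u)) T =
      cs M ((a + (j u).1 : ℕ) : ℤ) (M.init (z w w)) T := by
    refine List.ext_getElem? fun i => ?_
    by_cases hi : i < ℓ
    · have := congrFun hF2 ⟨i, hi⟩
      simp only at this
      rw [this, hF1]
    · rw [List.getElem?_eq_none (by have := hj u; omega),
        List.getElem?_eq_none (by rw [hF1]; have := hj w; omega)]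
  have hla : (codeL K u).length = a := length_codeL K u
  refine no_collision M hM (A1 := codeL K u) (A2 := codeL K w) (P := (pad k true).code)
    (B1 := codeR K u) (B2 := codeR K w) (by rw [length_codeL, length_codeL])
    (hlen u u) (hlen w w) (fun h => (hmem u u).1 h rfl) (fun h => (hmem w w).1 h rfl)
    ((hmem u w).2 huw) (j := (j u).1) (by rw [length_pad]; exact (j u).2.le) (by omega) ?_
  rw [hla]
  exact hcs

/-- arithmetic -/
lemma big_pow : ∀ m : ℕ, 40 ≤ m → 2 ^ 20 * m ^ 2 ≤ 2 ^ m := by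
  intro m hm
  induction m, hm using Nat.le_induction with
  | base => norm_num
  | succ m hm ih =>
    rw [pow_succ 2 m]
    have : (m + 1) ^ 2 ≤ 2 * m ^ 2 := by nlinarith
    calc 2 ^ 20 * (m + 1) ^ 2 ≤ 2 ^ 20 * (2 * m ^ 2) := Nat.mul_le_mul_left _ this
      _ = (2 ^ 20 * m ^ 2) * 2 := by ring
      _ ≤ 2 ^ m * 2 := Nat.mul_le_mul_right _ ih

/-- Machines for SAT at length `n`: `T s ≥ n² / 10⁴`. -/
theorem sat_hard (M : Machine Γ Q) [Fintype Q] {S : Set (List Bool)} {n T s : ℕ}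
    (hn : 100000 ≤ n) (h3 : 3 ∣ n)
    (hS : ∀ z : List Bool, z.length = n → (z ∈ S ↔ z ∈ SAT))
    (hs : Fintype.card Q < 2 ^ s) (hM : M.Decides S n T) :
    n ^ 2 ≤ 10 ^ 4 * (T * s) := by
  obtain ⟨K, hK1, hK2⟩ : ∃ K, 504 * 2 ^ K ≤ n ∧ n < 504 * 2 ^ (K + 1) := by
    refine ⟨Nat.log 2 (n / 504), ?_, ?_⟩
    · have : 2 ^ Nat.log 2 (n / 504) ≤ n / 504 := Nat.pow_log_le_self 2 (by omega)
      omega
    · have : n / 504 < 2 ^ (Nat.log 2 (n / 504) + 1) := Nat.lt_pow_succ_log_self (by norm_num) _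
      omega
  have hL := lenT_le (K + 1)
  have hLd := lenT_dvd (K + 1)
  rw [pow_succ] at hL hK2
  obtain ⟨k, hk⟩ : ∃ k, n = 6 + lenT (K + 1) + ((12 + 3 * k) + lenT (K + 1)) := by
    refine ⟨(n - 18 - 2 * lenT (K + 1)) / 3, ?_⟩
    omega
  have hc := count M hS hk hM
  set P := 12 + 3 * k with hP
  set m := 2 ^ K with hm
  have hm40 : 40 ≤ m := by omega
  have hP3 : n ≤ 3 * P := by omega
  have hPn : P ≤ 1008 * m := by omega
  have hP2 : P ^ 2 ≤ 2 ^ m := by
    calc P ^ 2 ≤ (1008 * m) ^ 2 := Nat.pow_le_pow_left hPn 2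
      _ = 1008 ^ 2 * m ^ 2 := by ring
      _ ≤ 2 ^ 20 * m ^ 2 := Nat.mul_le_mul_right _ (by norm_num)
      _ ≤ 2 ^ m := big_pow m hm40
  set ℓ := T / P with hℓ
  have h1 : 2 ^ m ≤ P * 2 ^ (s * ℓ) := by
    refine hc.trans (Nat.mul_le_mul_left _ ?_)
    rw [pow_mul]
    exact Nat.pow_le_pow_left hs _
  have h2 : 2 ^ m * 2 ^ m ≤ 2 ^ m * 2 ^ (2 * (s * ℓ)) := by
    calc 2 ^ m * 2 ^ m ≤ (P * 2 ^ (s * ℓ)) * (P * 2 ^ (s * ℓ)) := Nat.mul_le_mul h1 h1
      _ = P ^ 2 * 2 ^ (2 * (s * ℓ)) := by rw [two_mul, pow_add]; ring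
      _ ≤ 2 ^ m * 2 ^ (2 * (s * ℓ)) := Nat.mul_le_mul_right _ hP2
  have h4 : m ≤ 2 * (s * ℓ) := by
    have h5 : 2 ^ m ≤ 2 ^ (2 * (s * ℓ)) := Nat.le_of_mul_le_mul_left h2 (by positivity)
    exact (Nat.pow_le_pow_iff_right (by norm_num)).1 h5
  have h6 : P * ℓ ≤ T := Nat.mul_div_le T P
  have h7 : m * P ≤ 2 * (T * s) := by
    calc m * P ≤ 2 * (s * ℓ) * P := Nat.mul_le_mul_right _ h4
      _ = 2 * (s * (P * ℓ)) := by ring
      _ ≤ 2 * (s * T) := Nat.mul_le_mul_left _ (Nat.mul_le_mul_left _ h6)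
      _ = 2 * (T * s) := by ring
  have h8 : n * n ≤ (1008 * m) * (3 * P) := Nat.mul_le_mul (by omega) hP3
  calc n ^ 2 = n * n := by ring
    _ ≤ (1008 * m) * (3 * P) := h8
    _ = 3024 * (m * P) := by ring
    _ ≤ 3024 * (2 * (T * s)) := Nat.mul_le_mul_left _ h7
    _ ≤ 10 ^ 4 * (T * s) := by
      have : 3024 * (2 * (T * s)) = 6048 * (T * s) := by ring
      rw [this]
      exact Nat.mul_le_mul_right _ (by norm_num)

end Pool.Agent.Helper5.TS
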