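import Pool.Agent.Helper5.TS.Defs

/-! Crossing sequences: cut and paste. -/

set_option autoImplicit false

namespace Pool.Agent.Helper5.TS

variable {Γ Q : Type}

open Classical in
/-- the states in which the machine crosses the boundary between the cells `b - 1` and `b`
during the first `n` steps -/
noncomputable def cs (M : Machine Γ Q) (b : ℤ) : Conf Γ Q → ℕ → List Q
  | _, 0 => []
  | c, n + 1 =>
    if (c.pos < b ↔ (M.next c).pos < b) then cs M b (M.next c) n
    else (M.next c).q :: cs M b (M.next c) n

lemma move_le (M : Machine Γ Q) (c : Conf Γ Q) :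
    (M.next c).pos ≤ c.pos + 1 ∧ c.pos ≤ (M.next c).pos + 1 := by
  have h : ∀ s : SignType, (s : ℤ) ≤ 1 ∧ -1 ≤ (s : ℤ) := by
    intro s; cases s <;> simp
  have := h (M.act c.q (c.tape c.pos)).2.2
  constructor <;> simp only [Machine.next] <;> linarith [this.1, this.2]

lemma tape_right (M : Machine Γ Q) (c : Conf Γ Q) {b : ℤ} (h : c.pos < b) {i : ℤ} (hi : b ≤ i) :
    (M.next c).tape i = c.tape i := by
  simp only [Machine.next]
  rw [Function.update_of_ne (by omega)]

lemma tape_left (M : Machine Γ Q) (c : Conf Γ Q) {b : ℤ} (h : ¬ c.pos < b) {i : ℤ} (hi : i < b) :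
    (M.next c).tape i = c.tape i := by
  simp only [Machine.next]
  rw [Function.update_of_ne (by omega)]

/-- the configuration `Z` is pasted together from `X` (left of `b`) and `Y` (right of `b`) -/
def Inv (b : ℤ) (X Y Z : Conf Γ Q) : Prop :=
  (∀ i < b, Z.tape i = X.tape i) ∧ (∀ i, b ≤ i → Z.tape i = Y.tape i) ∧
  ((X.pos < b ∧ Y.pos < b ∧ Z.pos = X.pos ∧ Z.q = X.q) ∨
   (¬ X.pos < b ∧ ¬ Y.pos < b ∧ Z.pos = Y.pos ∧ Z.q = Y.q))

/-- two configurations which agree in state, position and scanned letter, do the same -/
lemma next_same (M : Machine Γ Q) {X Z : Conf Γ Q} (hp : Z.pos = X.pos) (hq : Z.q = X.q)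
    (ht : Z.tape Z.pos = X.tape X.pos) :
    (M.next Z).pos = (M.next X).pos ∧ (M.next Z).q = (M.next X).q ∧
    ∀ i, Z.tape i = X.tape i → (M.next Z).tape i = (M.next X).tape i := by
  refine ⟨?_, ?_, fun i hi => ?_⟩
  · simp only [Machine.next]; rw [hq, ht, hp]
  · simp only [Machine.next]; rw [hq, ht]
  · simp only [Machine.next]
    rw [hq, ht, hp]
    by_cases h : i = X.pos
    · subst h; simp
    · rw [Function.update_of_ne h, Function.update_of_ne h, hi]

theorem paste_aux (M : Machine Γ Q) (b : ℤ) : ∀ (k n m : ℕ), n + m ≤ k → ∀ X Y Z : Conf Γ Q,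
    Inv b X Y Z → cs M b X n = cs M b Y m →
    ∃ r, Inv b (M.next^[n] X) (M.next^[m] Y) (M.next^[r] Z) := by
  intro k
  induction k with
  | zero =>
    intro n m hnm X Y Z hI hc
    obtain rfl : n = 0 := by omega
    obtain rfl : m = 0 := by omega
    exact ⟨0, hI⟩
  | succ k ih =>
    intro n m hnm X Y Z hI hc
    obtain ⟨h1, h2, h3⟩ := hI
    rcases h3 with ⟨hX, hY, hp, hq⟩ | ⟨hX, hY, hp, hq⟩
    · -- the heads are on the left, Z follows X
      have hst : Z.tape Z.pos = X.tape X.pos := by rw [hp]; exact h1 _ hX
      obtain ⟨s1, s2, s3⟩ := next_same M hp hq hst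
      -- moving Y alone
      have moveY : ∀ m', m = m' + 1 → (M.next Y).pos < b →
          ∃ r, Inv b (M.next^[n] X) (M.next^[m] Y) (M.next^[r] Z) := by
        intro m' hm' hY'
        subst hm'
        have hcY : cs M b Y (m' + 1) = cs M b (M.next Y) m' := by
          simp only [cs]; rw [if_pos (by tauto)]
        rw [Function.iterate_succ_apply]
        refine ih n m' (by omega) X (M.next Y) Z ⟨h1, fun i hi => ?_, Or.inl ⟨hX, hY', hp, hq⟩⟩
          (by rw [hc, hcY])
        rw [h2 i hi, tape_right M Y hY hi]
      -- moving X and Z
      cases n with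
      | zero =>
        rcases Nat.eq_zero_or_pos m with rfl | hm0
        · exact ⟨0, h1, h2, Or.inl ⟨hX, hY, hp, hq⟩⟩
        obtain ⟨m', rfl⟩ : ∃ m', m = m' + 1 := ⟨m - 1, by omega⟩
        refine moveY m' rfl ?_
        by_contra hcon
        simp only [cs] at hc
        rw [if_neg (by tauto)] at hc
        exact absurd hc (by simp)
      | succ n' =>
        by_cases hX' : (M.next X).pos < b
        · have hcX : cs M b X (n' + 1) = cs M b (M.next X) n' := by
            simp only [cs]; rw [if_pos (by tauto)]
          obtain ⟨r, hr⟩ := ih n' m (by omega) (M.next X) Y (M.next Z)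
            ⟨fun i hi => s3 i (h1 i hi), fun i hi => by
              rw [← h2 i hi]; exact tape_right M Z (by rw [hp]; exact hX) hi,
              Or.inl ⟨hX', hY, s1, s2⟩⟩ (by rw [← hcX, hc])
          exact ⟨r + 1, by rw [Function.iterate_succ_apply, Function.iterate_succ_apply]; exact hr⟩
        · cases m with
          | zero =>
            simp only [cs] at hc
            rw [if_neg (by tauto)] at hc
            exact absurd hc (by simp)
          | succ m' =>
            by_cases hY' : (M.next Y).pos < b
            · exact moveY m' rfl hY'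
            · simp only [cs] at hc
              rw [if_neg (by tauto), if_neg (by tauto)] at hc
              obtain ⟨hc1, hc2⟩ := List.cons.inj hc
              have a1 := move_le M X
              have a2 := move_le M Y
              have hpX : (M.next X).pos = b := by omega
              have hpY : (M.next Y).pos = b := by omega
              obtain ⟨r, hr⟩ := ih n' m' (by omega) (M.next X) (M.next Y) (M.next Z)
                ⟨fun i hi => s3 i (h1 i hi), fun i hi => by
                  rw [tape_right M Z (by rw [hp]; exact hX) hi, h2 i hi, tape_right M Y hY hi],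
                  Or.inr ⟨hX', hY', by rw [s1, hpX, hpY], by rw [s2, hc1]⟩⟩ hc2
              exact ⟨r + 1, by
                rw [Function.iterate_succ_apply, Function.iterate_succ_apply,
                  Function.iterate_succ_apply]; exact hr⟩
    · -- the heads are on the right, Z follows Y
      have hst : Z.tape Z.pos = Y.tape Y.pos := by rw [hp]; exact h2 _ (not_lt.1 hY)
      obtain ⟨s1, s2, s3⟩ := next_same M hp hq hst
      have moveX : ∀ n', n = n' + 1 → ¬ (M.next X).pos < b →
          ∃ r, Inv b (M.next^[n] X) (M.next^[m] Y) (M.next^[r] Z) := by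
        intro n' hn' hX'
        subst hn'
        have hcX : cs M b X (n' + 1) = cs M b (M.next X) n' := by
          simp only [cs]; rw [if_pos (by tauto)]
        rw [Function.iterate_succ_apply]
        refine ih n' m (by omega) (M.next X) Y Z ⟨fun i hi => ?_, h2, Or.inr ⟨hX', hY, hp, hq⟩⟩
          (by rw [← hcX, hc])
        rw [h1 i hi, tape_left M X hX hi]
      cases m with
      | zero =>
        rcases Nat.eq_zero_or_pos n with rfl | hn0
        · exact ⟨0, h1, h2, Or.inr ⟨hX, hY, hp, hq⟩⟩
        obtain ⟨n', rfl⟩ : ∃ n', n = n' + 1 := ⟨n - 1, by omega⟩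
        refine moveX n' rfl ?_
        by_contra hcon
        simp only [cs] at hc
        rw [if_neg (by tauto)] at hc
        exact absurd hc (by simp)
      | succ m' =>
        by_cases hY' : (M.next Y).pos < b
        · cases n with
          | zero =>
            simp only [cs] at hc
            rw [if_neg (by tauto)] at hc
            exact absurd hc (by simp)
          | succ n' =>
            by_cases hX' : (M.next X).pos < b
            · simp only [cs] at hc
              rw [if_neg (by tauto), if_neg (by tauto)] at hc
              obtain ⟨hc1, hc2⟩ := List.cons.inj hc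
              have a1 := move_le M X
              have a2 := move_le M Y
              have hpX : (M.next X).pos = b - 1 := by omega
              have hpY : (M.next Y).pos = b - 1 := by omega
              obtain ⟨r, hr⟩ := ih n' m' (by omega) (M.next X) (M.next Y) (M.next Z)
                ⟨fun i hi => by
                  rw [tape_left M Z (by rw [hp]; exact hY) hi, h1 i hi, tape_left M X hX hi],
                  fun i hi => s3 i (h2 i hi),
                  Or.inl ⟨hX', hY', by rw [s1, hpX, hpY], by rw [s2, hc1]⟩⟩ hc2
              exact ⟨r + 1, by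
                rw [Function.iterate_succ_apply, Function.iterate_succ_apply,
                  Function.iterate_succ_apply]; exact hr⟩
            · exact moveX n' rfl hX'
        · have hcY : cs M b Y (m' + 1) = cs M b (M.next Y) m' := by
            simp only [cs]; rw [if_pos (by tauto)]
          obtain ⟨r, hr⟩ := ih n m' (by omega) X (M.next Y) (M.next Z)
            ⟨fun i hi => by
              rw [← h1 i hi]; exact tape_left M Z (by rw [hp]; exact hY) hi,
              fun i hi => s3 i (h2 i hi),
              Or.inr ⟨hX, hY', s1, s2⟩⟩ (by rw [hc, hcY])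
          exact ⟨r + 1, by rw [Function.iterate_succ_apply, Function.iterate_succ_apply]; exact hr⟩

/-- Cut and paste at a boundary. -/
theorem paste (M : Machine Γ Q) (b : ℤ) {n m : ℕ} {X Y Z : Conf Γ Q}
    (hI : Inv b X Y Z) (hc : cs M b X n = cs M b Y m) :
    ∃ r, Inv b (M.next^[n] X) (M.next^[m] Y) (M.next^[r] Z) :=
  paste_aux M b (n + m) n m le_rfl X Y Z hI hc

/-- at most `n` crossings in `n` steps -/
lemma sum_cs_le (M : Machine Γ Q) (s : Finset ℤ) : ∀ (n : ℕ) (c : Conf Γ Q),
    ∑ b ∈ s, (cs M b c n).length ≤ n := by
  classical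
  intro n
  induction n with
  | zero => intro c; simp [cs]
  | succ n ih =>
    intro c
    have h1 : ∀ b ∈ s, (cs M b c (n + 1)).length ≤
        (if (c.pos < b ↔ (M.next c).pos < b) then 0 else 1) + (cs M b (M.next c) n).length := by
      intro b _
      simp only [cs]
      split_ifs
      · simp
      · simp [add_comm]
    have h2 : ∑ b ∈ s, (if (c.pos < b ↔ (M.next c).pos < b) then 0 else 1) ≤ 1 := by
      have : ∑ b ∈ s, (if (c.pos < b ↔ (M.next c).pos < b) then 0 else 1)
          = (s.filter (fun b => ¬ (c.pos < b ↔ (M.next c).pos < b))).card := by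
        rw [Finset.card_filter]
        refine Finset.sum_congr rfl fun b _ => ?_
        split_ifs <;> rfl
      rw [this, Finset.card_le_one]
      intro a ha b hb
      simp only [Finset.mem_filter] at ha hb
      have := move_le M c
      have ha2 := ha.2
      have hb2 := hb.2
      by_cases q1 : c.pos < a <;> by_cases q2 : c.pos < b <;>
        by_cases q3 : (M.next c).pos < a <;> by_cases q4 : (M.next c).pos < b <;>
        simp only [q1, q2, q3, q4, not_true_eq_false, iff_true, iff_false, not_false_eq_true,
          iff_self] at ha2 hb2 <;> omega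
    calc ∑ b ∈ s, (cs M b c (n + 1)).length
        ≤ ∑ b ∈ s, ((if (c.pos < b ↔ (M.next c).pos < b) then 0 else 1)
            + (cs M b (M.next c) n).length) := Finset.sum_le_sum h1
      _ = ∑ b ∈ s, (if (c.pos < b ↔ (M.next c).pos < b) then 0 else 1)
            + ∑ b ∈ s, (cs M b (M.next c) n).length := Finset.sum_add_distrib
      _ ≤ 1 + n := add_le_add h2 (ih _)
      _ = n + 1 := by ring

/-- halting configurations are stable -/
lemma halt_stable (M : Machine Γ Q) {c : Conf Γ Q} {a : Bool} (h : M.halt c.q = some a) :
    M.next c = c := by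
  have : M.act c.q (c.tape c.pos) = (c.q, c.tape c.pos, 0) := by
    simp [Machine.act, h]
  cases c
  simp only [Machine.next] at *
  rw [this]
  simp

lemma halt_iter (M : Machine Γ Q) {c : Conf Γ Q} {a : Bool} {r : ℕ}
    (h : M.halt (M.next^[r] c).q = some a) {t : ℕ} (ht : r ≤ t) :
    M.halt (M.next^[t] c).q = some a := by
  induction t, ht using Nat.le_induction with
  | base => exact h
  | succ t _ ih =>
    rw [Function.iterate_succ_apply', halt_stable M ih]
    exact ih

lemma halt_unique (M : Machine Γ Q) {c : Conf Γ Q} {a a' : Bool} {r t : ℕ}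
    (h : M.halt (M.next^[r] c).q = some a) (h' : M.halt (M.next^[t] c).q = some a') : a = a' := by
  have h1 := halt_iter M h (le_max_left r t)
  have h2 := halt_iter M h' (le_max_right r t)
  rw [h1] at h2
  exact Option.some.inj h2

end Pool.Agent.Helper5.TS
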