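import Mathlib

/-!
Definitions for `MP_359409_lc/TimeSpace`: machines with one tape and an arbitrary finite set of
control states, which may depend on the length of the input. (A machine with a two-way read-only
input tape and `s` bits of work memory is the special case of a machine that does not write and
has `2 ^ s` states; an ordinary one-tape Turing machine is the special case of a fixed set of
states.)
-/

set_option autoImplicit false

namespace Pool.Agent.Helper5.TS

/-- A machine with one tape (infinite in both directions) with letters `Γ` and control
states `Q`. -/
structure Machine (Γ Q : Type) where
  /-- new state, letter written, and move of the head (`-1`, `0` or `1`) -/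
  step : Q → Γ → Q × Γ × SignType
  /-- the halting states, with the answer -/
  halt : Q → Option Bool
  /-- the initial state -/
  start : Q
  /-- the letter of the cells outside the input -/
  blank : Γ
  /-- the letters of the input -/
  inp : Bool → Γ

/-- configurations: state, position of the head, contents of the tape -/
structure Conf (Γ Q : Type) where
  /-- the state -/
  q : Q
  /-- the position of the head -/
  pos : ℤ
  /-- the contents of the tape -/
  tape : ℤ → Γ

variable {Γ Q : Type}

/-- what the machine does in state `q` when it reads the letter `a`; in a halting state it does
nothing -/
def Machine.act (M : Machine Γ Q) (q : Q) (a : Γ) : Q × Γ × SignType :=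
  match M.halt q with
  | some _ => (q, a, 0)
  | none => M.step q a

/-- one step -/
def Machine.next (M : Machine Γ Q) (c : Conf Γ Q) : Conf Γ Q where
  q := (M.act c.q (c.tape c.pos)).1
  pos := c.pos + ((M.act c.q (c.tape c.pos)).2.2 : ℤ)
  tape := Function.update c.tape c.pos (M.act c.q (c.tape c.pos)).2.1

/-- the initial configuration: the word `w` in the cells `0, 1, ...`, the head in cell `0` -/
def Machine.init (M : Machine Γ Q) (w : List Bool) : Conf Γ Q where
  q := M.start
  pos := 0
  tape := fun i => if i < 0 then M.blank else (w[i.toNat]?).elim M.blank M.inp

/-- `M` decides, for the words of length `n`, within `T` steps whether they are in `S` -/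
def Machine.Decides (M : Machine Γ Q) (S : Set (List Bool)) (n T : ℕ) : Prop :=
  ∀ w : List Bool, w.length = n →
    ∃ b : Bool, M.halt (M.next^[T] (M.init w)).q = some b ∧ (b = true ↔ w ∈ S)

end Pool.Agent.Helper5.TS
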