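import Mathlib

/-!
Definitions for `MP_359409_lc/FormulaSize`: formulas over all binary gates and their size,
branching programs and their number of nodes.
-/

set_option autoImplicit false

namespace Pool.Agent.Helper5.TS

/-- formulas with arbitrary binary gates over the variables `α` -/
inductive Fm (α : Type)
  | const (b : Bool)
  | var (a : α)
  | gate (f : Bool → Bool → Bool) (l r : Fm α)

/-- value of a formula -/
def Fm.eval {α : Type} (x : α → Bool) : Fm α → Bool
  | .const b => b
  | .var a => x a
  | .gate f l r => f (l.eval x) (r.eval x)

/-- size of a formula: the number of leaves which carry variables -/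
def Fm.size {α : Type} : Fm α → ℕ
  | .const _ => 0
  | .var _ => 1
  | .gate _ l r => l.size + r.size

/-- the formula `F` decides, for the words of length `n`, whether they are in `S` (the variable
`i` stands for the letter number `i`) -/
def Fm.Decides (F : Fm ℕ) (S : Set (List Bool)) (n : ℕ) : Prop :=
  ∀ w : List Bool, w.length = n → (F.eval (fun i => w.getD i false) = true ↔ w ∈ S)

/-- A branching program with `m` nodes, that is a machine with `m` states and random access to its
input: node `i` reads the variable `lab i` and goes on to `nxt i b` if the value read is `b`; the
program stops at `inl b` with the answer `b`. Cycles are allowed. -/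
structure BP (α : Type) (m : ℕ) where
  /-- the variable read at a node -/
  lab : Fin m → α
  /-- the successors of a node -/
  nxt : Fin m → Bool → Bool ⊕ Fin m
  /-- the start -/
  start : Bool ⊕ Fin m

/-- one step of a branching program on the input `x` -/
def BP.step {α : Type} {m : ℕ} (B : BP α m) (x : α → Bool) : Bool ⊕ Fin m → Bool ⊕ Fin m
  | .inl b => .inl b
  | .inr i => B.nxt i (x (B.lab i))

/-- the branching program stops on the input `x` with the answer `b` (after any number of steps) -/
def BP.Outputs {α : Type} {m : ℕ} (B : BP α m) (x : α → Bool) (b : Bool) : Prop :=
  ∃ t, (B.step x)^[t] B.start = .inl b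

/-- the branching program `B` decides, for the words of length `n`, whether they are in `S` -/
def BP.Decides {m : ℕ} (B : BP ℕ m) (S : Set (List Bool)) (n : ℕ) : Prop :=
  ∀ w : List Bool, w.length = n →
    ∃ b : Bool, B.Outputs (fun i => w.getD i false) b ∧ (b = true ↔ w ∈ S)

end Pool.Agent.Helper5.TS
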