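import Pool.Agent.Helper70.AC.Rig
import Pool.Agent.Helper70.AC.Sparse
import Pool.Agent.Helper48.ExistsUniversal
import Pool.Agent.Helper5.TS.BPCount

/-!
Unconditional inseparability of the Kolmogorov-simple part of SAT from the complement of SAT by
polynomial time sets which have small formulas over all binary gates, or small branching programs.
The definitions used by the statement are in `Pool/Agent/Helper72/Defs.lean` (formulas and their
binary code, `SAT`, `InP`, `IsUniversal`, `KClass`) and in `Pool/Agent/Helper5/TS/FmDefs.lean`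
(`Fm`, `Fm.eval`, `Fm.size`, `Fm.Decides`, `BP`, `BP.step`, `BP.Outputs`, `BP.Decides`).
-/

set_option autoImplicit false

namespace Pool.Agent.Results.MP_359409_lc.FormulaSize

open Pool.Agent.Helper72 Pool.Agent.Helper70.AC Pool.Agent.Helper5.TS Turing Filter

/-- Let `U` be a universal machine, `g(n) - log log log n → ∞`, `G` eventually above every
polynomial, `K = K[g(n), G(n)]`.
(1) Let `S` be a polynomial time set which separates `K ∩ SAT` from `K \ SAT` (for instance from
the complement of `SAT`). For all large `n` divisible by `3`, every formula over all binary gates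
which decides for the words of length `n` whether they are in `S` has at least
`n ^ 2 / (10 ^ 5 * log n)` leaves, and every branching program which does so has at least
`n ^ 2 / (10 ^ 5 * (log n) ^ 2)` nodes.
(2) For `K ∩ SAT` itself formulas of size `2 ^ (g n + 1) * n` suffice. -/
theorem result (U : TM2ComputableAux Bool Bool) (hU : IsUniversal U) (g G : ℕ → ℕ)
    (hg : ∀ c, ∀ᶠ n in atTop, Nat.log 2 (Nat.log 2 (Nat.log 2 n)) + c ≤ g n)
    (hG : ∀ k, ∀ᶠ n in atTop, n ^ k ≤ G n) :
    (∀ S, InP S → KClass U g G ∩ SAT ⊆ S → S ∩ (KClass U g G ∩ SATᶜ) = ∅ →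
      ∃ n0, ∀ n ≥ n0, 3 ∣ n →
        (∀ F : Fm ℕ, F.Decides S n → n ^ 2 ≤ 10 ^ 5 * (F.size * Nat.log 2 n)) ∧
        (∀ (m : ℕ) (B : BP ℕ m), B.Decides S n → n ^ 2 ≤ 10 ^ 5 * (m * Nat.log 2 n ^ 2))) ∧
    (∀ n, ∃ F : Fm ℕ, F.Decides (KClass U g G ∩ SAT) n ∧ F.size ≤ 2 ^ (g n + 1) * n) := by
  refine ⟨fun S hS hKS hSK => ?_, fun n => ?_⟩
  · obtain ⟨n0, hn0⟩ : ∃ n0, ∀ z : List Bool, n0 ≤ z.length → (z ∈ S ↔ z ∈ SAT) := by
      refine rigid hU hg hG hS fun x hx => ⟨fun hxS => ?_, fun hxS => hKS ⟨hx, hxS⟩⟩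
      by_contra hcon
      have : x ∈ S ∩ (KClass U g G ∩ SATᶜ) := ⟨hxS, hx, hcon⟩
      rw [hSK] at this
      exact this
    refine ⟨n0 + 300000, fun n hn h3 => ⟨fun F hF => ?_, fun m B hB => ?_⟩⟩
    · exact sat_formula (by omega) h3 (fun z hz => hn0 z (by omega)) F hF
    · exact sat_bp (by omega) h3 (fun z hz => hn0 z (by omega)) B hB
  · exact few_formula _ n _ (card_KClass U g G n)

/-- The instance asked about, `g(n) = ⌈log2 n⌉` and `G(n) = n ^ ⌈log2 n⌉`: a polynomial time set
`S` which contains `K ∩ SAT` and is disjoint from the complement of `SAT` has formulas over all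
binary gates of size at least `n ^ 2 / (10 ^ 5 * log n)` and branching programs with at least
`n ^ 2 / (10 ^ 5 * (log n) ^ 2)` nodes only. -/
theorem question_one (U : TM2ComputableAux Bool Bool) (hU : IsUniversal U) (S : Set (List Bool))
    (hS : InP S) (h1 : KClass U (Nat.clog 2) (fun n => n ^ Nat.clog 2 n) ∩ SAT ⊆ S)
    (h2 : S ∩ SATᶜ = ∅) :
    ∃ n0, ∀ n ≥ n0, 3 ∣ n →
      (∀ F : Fm ℕ, F.Decides S n → n ^ 2 ≤ 10 ^ 5 * (F.size * Nat.log 2 n)) ∧
      (∀ (m : ℕ) (B : BP ℕ m), B.Decides S n → n ^ 2 ≤ 10 ^ 5 * (m * Nat.log 2 n ^ 2)) := by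
  have hlog : Tendsto (fun n => Nat.log 2 n) atTop atTop := by
    refine tendsto_atTop_atTop.2 fun b => ⟨2 ^ b, fun a ha => ?_⟩
    exact Nat.le_log_of_pow_le (by norm_num) ha
  have hr := result U hU (Nat.clog 2) (fun n => n ^ Nat.clog 2 n) (fun c => ?_) (fun k => ?_)
  · refine hr.1 S hS h1 ?_
    rw [← Set.subset_empty_iff] at h2 ⊢
    exact (Set.inter_subset_inter_right S Set.inter_subset_right).trans h2
  · filter_upwards [hlog.eventually (hlog.eventually_ge_atTop (c + 2)),
      eventually_ge_atTop 2] with n hn h2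
    set m := Nat.log 2 (Nat.log 2 n) with hm
    have h0 : Nat.log 2 n ≠ 0 := by
      intro h; rw [hm, h] at hn; simp at hn
    have h1 : 2 ^ m ≤ Nat.log 2 n := Nat.pow_log_le_self 2 h0
    have h3 : Nat.log 2 n ≤ Nat.clog 2 n := Nat.log_le_clog 2 n
    have h4 : Nat.log 2 m + c ≤ 2 ^ m := by
      have h5 : Nat.log 2 m ≤ m := Nat.log_le_self _ _
      have h6 : ∀ k, 2 ≤ k → 2 * k ≤ 2 ^ k := by
        intro k hk
        induction k, hk using Nat.le_induction with
        | base => norm_num
        | succ k hk ih => rw [pow_succ]; omega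
      have := h6 m (by omega)
      omega
    omega
  · filter_upwards [hlog.eventually_ge_atTop k, eventually_ge_atTop 1] with n hn h1
    exact Nat.pow_le_pow_right h1 (hn.trans (Nat.log_le_clog 2 n))

/-- Universal machines in the sense used above exist. -/
theorem universal_exists : ∃ U : TM2ComputableAux Bool Bool, IsUniversal U :=
  Pool.Agent.Helper48.exists_universal

end Pool.Agent.Results.MP_359409_lc.FormulaSize
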