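import Pool.Agent.Helper5.TS.FmDefs

/-! The theorem of Nechiporuk for formulas over all binary gates. -/

set_option autoImplicit false

namespace Pool.Agent.Helper5.TS

variable {α : Type}

open Classical in
/-- number of leaves with variables in `V` -/
noncomputable def Fm.leaves (V : Set α) : Fm α → ℕ
  | .const _ => 0
  | .var a => if a ∈ V then 1 else 0
  | .gate _ l r => l.leaves V + r.leaves V

open Classical in
/-- `x` on `V` and `ρ` outside -/
noncomputable def mix (V : Set α) (x ρ : α → Bool) : α → Bool := fun a => if a ∈ V then x a else ρ a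

/-- the subfunctions on `V`, composed with unary functions -/
def Fm.subs (V : Set α) (F : Fm α) : Set ((α → Bool) → Bool) :=
  {h | ∃ (ρ : α → Bool) (u : Bool → Bool), h = fun x => u (F.eval (mix V x ρ))}

lemma eval_const_of_leaves {V : Set α} : ∀ {F : Fm α}, F.leaves V = 0 →
    ∀ x x' ρ, F.eval (mix V x ρ) = F.eval (mix V x' ρ)
  | .const b, _, _, _, _ => rfl
  | .var a, h, x, x', ρ => by
    have ha : a ∉ V := by
      intro hcon
      simp [Fm.leaves, hcon] at h
    simp [Fm.eval, mix, ha]
  | .gate f l r, h, x, x', ρ => by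
    simp only [Fm.leaves] at h
    simp only [Fm.eval]
    rw [eval_const_of_leaves (F := l) (by omega) x x' ρ,
      eval_const_of_leaves (F := r) (by omega) x x' ρ]

lemma subs_finite_card (V : Set α) : ∀ F : Fm α, (F.subs V).Finite ∧
    (F.leaves V = 0 → (F.subs V).ncard ≤ 2) ∧ (1 ≤ F.leaves V → 4 * (F.subs V).ncard ≤ 16 ^ F.leaves V) := by
  classical
  -- the constant case
  have hconst : ∀ F : Fm α, F.leaves V = 0 →
      F.subs V ⊆ (Set.range fun (b : Bool) => (fun _ : α → Bool => b)) := by
    rintro F hF h ⟨ρ, u, rfl⟩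
    refine ⟨u (F.eval (mix V (fun _ => false) ρ)), ?_⟩
    funext x
    exact congrArg u (eval_const_of_leaves hF (fun _ => false) x ρ)
  have hrange : (Set.range fun (b : Bool) => (fun _ : α → Bool => b)).Finite := Set.finite_range _
  have hrc : (Set.range fun (b : Bool) => (fun _ : α → Bool => b)).ncard ≤ 2 := by
    rw [← Set.image_univ]
    refine (Set.ncard_image_le Set.finite_univ).trans ?_
    rw [Set.ncard_univ, Nat.card_eq_fintype_card, Fintype.card_bool]
  have hzero : ∀ F : Fm α, F.leaves V = 0 → (F.subs V).Finite ∧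
      (F.leaves V = 0 → (F.subs V).ncard ≤ 2) ∧
      (1 ≤ F.leaves V → 4 * (F.subs V).ncard ≤ 16 ^ F.leaves V) := by
    intro F hF
    exact ⟨hrange.subset (hconst F hF),
      fun _ => (Set.ncard_le_ncard (hconst F hF) hrange).trans hrc, fun h => by omega⟩
  intro F
  induction F with
  | const b => exact hzero _ rfl
  | var a =>
    by_cases ha : a ∈ V
    · have hsub : (Fm.var a).subs V ⊆
          Set.range (fun (u : Bool → Bool) => (fun x : α → Bool => u (x a))) := by
        rintro h ⟨ρ, u, rfl⟩
        exact ⟨u, by funext x; simp [Fm.eval, mix, ha]⟩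
      have hl : (Fm.var a).leaves V = 1 := by simp [Fm.leaves, ha]
      have hfin : (Set.range (fun (u : Bool → Bool) =>
        (fun x : α → Bool => u (x a)))).Finite := Set.finite_range _
      refine ⟨hfin.subset hsub, fun h => by omega, fun _ => ?_⟩
      rw [hl]
      have h1 : ((Fm.var a).subs V).ncard ≤ 4 := by
        refine (Set.ncard_le_ncard hsub hfin).trans ?_
        rw [← Set.image_univ]
        refine (Set.ncard_image_le Set.finite_univ).trans ?_
        rw [Set.ncard_univ, Nat.card_eq_fintype_card]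
        simp
      omega
    · exact hzero _ (by simp [Fm.leaves, ha])
  | gate f l r ihl ihr =>
    obtain ⟨fl, cl0, cl1⟩ := ihl
    obtain ⟨fr, cr0, cr1⟩ := ihr
    have hsum : (Fm.gate f l r).leaves V = l.leaves V + r.leaves V := rfl
    rcases Nat.eq_zero_or_pos (l.leaves V) with hl | hl
    · rcases Nat.eq_zero_or_pos (r.leaves V) with hr | hr
      · exact hzero _ (by rw [hsum, hl, hr])
      · have hsub : (Fm.gate f l r).subs V ⊆ r.subs V := by
          rintro h ⟨ρ, u, rfl⟩
          refine ⟨ρ, fun b => u (f (l.eval (mix V (fun _ => false) ρ)) b), ?_⟩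
          funext x
          simp only [Fm.eval]
          rw [eval_const_of_leaves hl x (fun _ => false) ρ]
        refine ⟨fr.subset hsub, fun h => by omega, fun _ => ?_⟩
        rw [hsum, hl, zero_add]
        exact (Nat.mul_le_mul_left _ (Set.ncard_le_ncard hsub fr)).trans (cr1 hr)
    · rcases Nat.eq_zero_or_pos (r.leaves V) with hr | hr
      · have hsub : (Fm.gate f l r).subs V ⊆ l.subs V := by
          rintro h ⟨ρ, u, rfl⟩
          refine ⟨ρ, fun b => u (f b (r.eval (mix V (fun _ => false) ρ))), ?_⟩
          funext x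
          simp only [Fm.eval]
          rw [eval_const_of_leaves hr x (fun _ => false) ρ]
        refine ⟨fl.subset hsub, fun h => by omega, fun _ => ?_⟩
        rw [hsum, hr, add_zero]
        exact (Nat.mul_le_mul_left _ (Set.ncard_le_ncard hsub fl)).trans (cl1 hl)
      · have hsub : (Fm.gate f l r).subs V ⊆
            (fun t : (Bool → Bool) × ((α → Bool) → Bool) × ((α → Bool) → Bool) =>
              (fun x => t.1 (f (t.2.1 x) (t.2.2 x)))) ''
            (Set.univ ×ˢ (l.subs V ×ˢ r.subs V)) := by
          rintro h ⟨ρ, u, rfl⟩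
          refine ⟨(u, (fun x => l.eval (mix V x ρ)), (fun x => r.eval (mix V x ρ))),
            ⟨trivial, ⟨ρ, id, rfl⟩, ⟨ρ, id, rfl⟩⟩, rfl⟩
        have hfin : ((Set.univ : Set (Bool → Bool)) ×ˢ (l.subs V ×ˢ r.subs V)).Finite :=
          Set.finite_univ.prod (fl.prod fr)
        refine ⟨(hfin.image _).subset hsub, fun h => by omega, fun _ => ?_⟩
        have hc : ((Fm.gate f l r).subs V).ncard ≤ 4 * ((l.subs V).ncard * (r.subs V).ncard) := by
          refine (Set.ncard_le_ncard hsub (hfin.image _)).trans ?_
          refine (Set.ncard_image_le hfin).trans ?_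
          rw [Set.ncard_prod, Set.ncard_prod, Set.ncard_univ, Nat.card_eq_fintype_card]
          simp
        rw [hsum, pow_add]
        calc 4 * ((Fm.gate f l r).subs V).ncard
            ≤ 4 * (4 * ((l.subs V).ncard * (r.subs V).ncard)) := Nat.mul_le_mul_left _ hc
          _ = (4 * (l.subs V).ncard) * (4 * (r.subs V).ncard) := by ring
          _ ≤ 16 ^ l.leaves V * 16 ^ r.leaves V := Nat.mul_le_mul (cl1 hl) (cr1 hr)

/-- disjoint sets of variables have few leaves together -/
lemma sum_leaves {ι : Type} [DecidableEq ι] (s : Finset ι) (V : ι → Set α)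
    (hV : ∀ i ∈ s, ∀ j ∈ s, i ≠ j → Disjoint (V i) (V j)) : ∀ F : Fm α,
    ∑ i ∈ s, F.leaves (V i) ≤ F.size
  | .const _ => by simp [Fm.leaves, Fm.size]
  | .var a => by
    classical
    simp only [Fm.leaves, Fm.size]
    rw [← Finset.card_filter, Finset.card_le_one]
    intro i hi j hj
    simp only [Finset.mem_filter] at hi hj
    by_contra hne
    exact Set.disjoint_left.1 (hV i hi.1 j hj.1 hne) hi.2 hj.2
  | .gate f l r => by
    simp only [Fm.leaves, Fm.size, Finset.sum_add_distrib]
    exact add_le_add (sum_leaves s V hV l) (sum_leaves s V hV r)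

/-- many subfunctions need many leaves -/
lemma many_leaves (V : Set α) (F : Fm α) (m : ℕ) (hm : 2 ≤ m) (ρ : (Fin m → Bool) → (α → Bool))
    (hρ : Function.Injective fun W => (fun x => F.eval (mix V x (ρ W)))) :
    m + 2 ≤ 4 * F.leaves V := by
  classical
  obtain ⟨hfin, h0, h1⟩ := subs_finite_card V F
  have hsub : (fun W => (fun x => F.eval (mix V x (ρ W)))) '' Set.univ ⊆ F.subs V := by
    rintro h ⟨W, -, rfl⟩
    exact ⟨ρ W, id, rfl⟩
  have hcard : 2 ^ m ≤ (F.subs V).ncard := by
    have := Set.ncard_le_ncard hsub hfin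
    rw [Set.ncard_image_of_injective _ hρ, Set.ncard_univ, Nat.card_eq_fintype_card] at this
    simpa using this
  have hpos : 1 ≤ F.leaves V := by
    by_contra hcon
    have h2 := h0 (by omega)
    have h3 : 2 ^ 2 ≤ 2 ^ m := Nat.pow_le_pow_right (by norm_num) hm
    omega
  have h4 := h1 hpos
  have h5 : 2 ^ (m + 2) ≤ 2 ^ (4 * F.leaves V) := by
    calc 2 ^ (m + 2) = 4 * 2 ^ m := by rw [pow_add]; ring
      _ ≤ 4 * (F.subs V).ncard := Nat.mul_le_mul_left _ hcard
      _ ≤ 16 ^ F.leaves V := h4
      _ = 2 ^ (4 * F.leaves V) := by rw [pow_mul]; norm_num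
  exact (Nat.pow_le_pow_iff_right (by norm_num)).1 h5

end Pool.Agent.Helper5.TS
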