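import Pool.Agent.Helper5.TS.Nech

/-! The theorem of Nechiporuk for branching programs. -/

set_option autoImplicit false

namespace Pool.Agent.Helper5.TS

variable {α : Type} {m : ℕ}

/-- the nodes which read variables in `V` -/
def BP.VN (B : BP α m) (V : Set α) : Type := {i : Fin m // B.lab i ∈ V}

open Classical in
noncomputable instance (B : BP α m) (V : Set α) : Fintype (B.VN V) := by
  unfold BP.VN; infer_instance

open Classical in
/-- one step with the input `ρ`, except at the nodes in `V`, which are fixed -/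
noncomputable def BP.stepV (B : BP α m) (V : Set α) (ρ : α → Bool) : Bool ⊕ Fin m → Bool ⊕ Fin m
  | .inl b => .inl b
  | .inr i => if B.lab i ∈ V then .inr i else B.nxt i (ρ (B.lab i))

/-- the first sink or node in `V` -/
inductive BP.Jump (B : BP α m) (V : Set α) (ρ : α → Bool) :
    Bool ⊕ Fin m → Bool ⊕ B.VN V → Prop
  | sink (b : Bool) : BP.Jump B V ρ (.inl b) (.inl b)
  | node (i : Fin m) (h : B.lab i ∈ V) : BP.Jump B V ρ (.inr i) (.inr ⟨i, h⟩)
  | walk (i : Fin m) (h : B.lab i ∉ V) (t : Bool ⊕ B.VN V)
      (hj : BP.Jump B V ρ (B.nxt i (ρ (B.lab i))) t) : BP.Jump B V ρ (.inr i) t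

lemma BP.Jump.unique {B : BP α m} {V : Set α} {ρ : α → Bool} {s : Bool ⊕ Fin m}
    {t t' : Bool ⊕ B.VN V} (h : B.Jump V ρ s t) (h' : B.Jump V ρ s t') : t = t' := by
  induction h with
  | sink b => cases h'; rfl
  | node i hi =>
    cases h' with
    | node _ _ => rfl
    | walk _ hn _ _ => exact absurd hi hn
  | walk i hi t _ ih =>
    cases h' with
    | node _ hn => exact absurd hn hi
    | walk _ _ _ hj => exact ih hj

open Classical in
/-- the first sink or node in `V`, if any -/
noncomputable def BP.jump (B : BP α m) (V : Set α) (ρ : α → Bool) (s : Bool ⊕ Fin m) :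
    Option (Bool ⊕ B.VN V) :=
  if h : ∃ t, B.Jump V ρ s t then some h.choose else none

lemma BP.jump_eq_some {B : BP α m} {V : Set α} {ρ : α → Bool} {s : Bool ⊕ Fin m}
    {t : Bool ⊕ B.VN V} : B.jump V ρ s = some t ↔ B.Jump V ρ s t := by
  classical
  unfold BP.jump
  constructor
  · intro h
    split_ifs at h with hx
    rw [← Option.some.inj h]
    exact hx.choose_spec
  · intro h
    have hx : ∃ t, B.Jump V ρ s t := ⟨t, h⟩
    rw [dif_pos hx]
    congr 1
    exact hx.choose_spec.unique h

/-- reaching the answer `b` in the compressed program given by the table `d` -/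
inductive BP.Red (B : BP α m) (V : Set α) (d : B.VN V → Bool → Option (Bool ⊕ B.VN V))
    (x : α → Bool) (b : Bool) : Option (Bool ⊕ B.VN V) → Prop
  | done : BP.Red B V d x b (some (.inl b))
  | go (i : B.VN V) (h : BP.Red B V d x b (d i (x (B.lab i.1)))) :
      BP.Red B V d x b (some (.inr i))

lemma BP.red_of_iter (B : BP α m) (V : Set α) (x ρ : α → Bool) (b : Bool) : ∀ (t : ℕ)
    (s : Bool ⊕ Fin m), (B.step (mix V x ρ))^[t] s = .inl b →
      B.Red V (fun i c => B.jump V ρ (B.nxt i.1 c)) x b (B.jump V ρ s) := by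
  classical
  intro t
  induction t with
  | zero =>
    intro s hs
    simp only [Function.iterate_zero, id] at hs
    subst hs
    rw [BP.jump_eq_some.2 (BP.Jump.sink b)]
    exact BP.Red.done
  | succ t ih =>
    intro s hs
    rw [Function.iterate_succ_apply] at hs
    have h1 := ih _ hs
    cases s with
    | inl c => exact h1
    | inr i =>
      simp only [BP.step] at h1
      by_cases hi : B.lab i ∈ V
      · rw [BP.jump_eq_some.2 (BP.Jump.node i hi)]
        refine BP.Red.go ⟨i, hi⟩ ?_
        have hx : mix V x ρ (B.lab i) = x (B.lab i) := by simp [mix, hi]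
        rw [hx] at h1
        exact h1
      · have hx : mix V x ρ (B.lab i) = ρ (B.lab i) := by simp [mix, hi]
        rw [hx] at h1
        have he : B.jump V ρ (.inr i) = B.jump V ρ (B.nxt i (ρ (B.lab i))) := by
          cases hj : B.jump V ρ (B.nxt i (ρ (B.lab i))) with
          | some u => exact BP.jump_eq_some.2 (BP.Jump.walk i hi u (BP.jump_eq_some.1 hj))
          | none =>
            cases hj' : B.jump V ρ (.inr i) with
            | none => rfl
            | some u =>
              have h2 := BP.jump_eq_some.1 hj'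
              cases h2 with
              | node _ hn => exact absurd hn hi
              | walk _ _ _ h3 =>
                rw [BP.jump_eq_some.2 h3] at hj
                cases hj
        rw [he]
        exact h1

lemma BP.iter_of_jump (B : BP α m) (V : Set α) (x ρ : α → Bool) {s : Bool ⊕ Fin m}
    {t : Bool ⊕ B.VN V} (h : B.Jump V ρ s t) :
    ∃ r, (B.step (mix V x ρ))^[r] s = t.map id Subtype.val := by
  classical
  induction h with
  | sink b => exact ⟨0, rfl⟩
  | node i hi => exact ⟨0, rfl⟩
  | walk i hi t _ ih =>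
    obtain ⟨r, hr⟩ := ih
    refine ⟨r + 1, ?_⟩
    rw [Function.iterate_succ_apply]
    have hx : mix V x ρ (B.lab i) = ρ (B.lab i) := by simp [mix, hi]
    simp only [BP.step, hx]
    exact hr

lemma BP.iter_of_red (B : BP α m) (V : Set α) (x ρ : α → Bool) (b : Bool)
    {o : Option (Bool ⊕ B.VN V)}
    (h : B.Red V (fun i c => B.jump V ρ (B.nxt i.1 c)) x b o) :
    ∀ s, B.jump V ρ s = o → ∃ r, (B.step (mix V x ρ))^[r] s = .inl b := by
  classical
  induction h with
  | done =>
    intro s hs
    obtain ⟨r, hr⟩ := B.iter_of_jump V x ρ (BP.jump_eq_some.1 hs)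
    exact ⟨r, hr⟩
  | go i _ ih =>
    intro s hs
    obtain ⟨r, hr⟩ := B.iter_of_jump V x ρ (BP.jump_eq_some.1 hs)
    obtain ⟨r', hr'⟩ := ih (B.nxt i.1 (x (B.lab i.1))) rfl
    refine ⟨r' + 1 + r, ?_⟩
    rw [Function.iterate_add_apply, hr, Function.iterate_succ_apply]
    have hx : mix V x ρ (B.lab i.1) = x (B.lab i.1) := by simp [mix, i.2]
    have e : B.step (mix V x ρ) (Sum.map id Subtype.val (Sum.inr i : Bool ⊕ B.VN V)) =
        B.nxt i.1 (x (B.lab i.1)) := by
      change B.nxt i.1 (mix V x ρ (B.lab i.1)) = _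
      rw [hx]
    rw [e]
    exact hr'

/-- many subfunctions need many nodes -/
lemma many_nodes (V : Set α) (B : BP α m) (M : ℕ) (ρ : (Fin M → Bool) → (α → Bool))
    (hρ : ∀ W W', (∀ x b, B.Outputs (mix V x (ρ W)) b ↔ B.Outputs (mix V x (ρ W')) b) → W = W') :
    2 ^ M ≤ (Fintype.card (B.VN V) + 3) ^ (2 * Fintype.card (B.VN V) + 1) := by
  classical
  let D : (Fin M → Bool) → Option (Bool ⊕ B.VN V) × (B.VN V → Bool → Option (Bool ⊕ B.VN V)) :=
    fun W => (B.jump V (ρ W) B.start, fun i c => B.jump V (ρ W) (B.nxt i.1 c))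
  have hD : Function.Injective D := by
    intro W W' h
    refine hρ W W' fun x b => ?_
    have key : ∀ W, B.Outputs (mix V x (ρ W)) b ↔ B.Red V (D W).2 x b (D W).1 := by
      intro W
      constructor
      · rintro ⟨t, ht⟩
        exact B.red_of_iter V x (ρ W) b t _ ht
      · intro h
        exact B.iter_of_red V x (ρ W) b h _ rfl
    rw [key W, key W', h]
  have := Fintype.card_le_of_injective D hD
  simp only [Fintype.card_fun, Fintype.card_fin, Fintype.card_bool, Fintype.card_prod,
    Fintype.card_option, Fintype.card_sum] at this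
  refine this.trans (le_of_eq ?_)
  rw [← pow_mul, pow_succ, mul_comm]
  congr 1
  · congr 1
    ring
  · ring

end Pool.Agent.Helper5.TS
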