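import Pool.Agent.Helper5.TS.Nech
import Pool.Agent.Helper5.TS.Form

/-! Formulas for SAT restricted to one length. -/

set_option autoImplicit false

namespace Pool.Agent.Helper5.TS

open Pool.Agent.Helper72 Turing Computability

/-- constants and literals -/
inductive Sym (P : Type)
  | c (b : Bool)
  | l (p : P) (n : Bool)

/-- value -/
def Sym.eval {P : Type} (θ : P → Bool) : Sym P → Bool
  | .c b => b
  | .l p n => xor n (θ p)

/-- the code depends on the parameters by constants and literals only -/
def Proj {P : Type} (φ : (P → Bool) → BForm) : Prop :=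
  ∃ L : List (Sym P), ∀ θ, (φ θ).code = L.map (Sym.eval θ)

variable {P : Type}

lemma proj_const (φ : BForm) : Proj (fun _ : P → Bool => φ) := by
  refine ⟨φ.code.map Sym.c, fun θ => ?_⟩
  rw [List.map_map]
  have : (Sym.eval θ ∘ Sym.c : Bool → Bool) = id := rfl
  rw [this, List.map_id]

lemma proj_leaf (p : P) (n : Bool) : Proj (fun θ : P → Bool => leaf (xor n (θ p))) := by
  refine ⟨[.c true, .l p n, .l p (!n), .c false, .c false, .c true, .c true, .c false, .c false,
    .c false, .c false, .c true], fun θ => ?_⟩
  have h0 : encodeNat 0 = [] := by decide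
  cases n <;> cases h : θ p <;> simp [leaf, BForm.code, Sym.eval, h, h0]

lemma proj_neg {φ : (P → Bool) → BForm} (h : Proj φ) : Proj (fun θ => .neg (φ θ)) := by
  obtain ⟨L, hL⟩ := h
  refine ⟨[.c true, .c false, .c false] ++ L, fun θ => ?_⟩
  simp [BForm.code, hL, Sym.eval]

lemma proj_conj {φ ψ : (P → Bool) → BForm} (h : Proj φ) (h' : Proj ψ) :
    Proj (fun θ => .conj (φ θ) (ψ θ)) := by
  obtain ⟨L, hL⟩ := h
  obtain ⟨L', hL'⟩ := h'
  refine ⟨[.c true, .c false, .c true] ++ (L ++ L'), fun θ => ?_⟩
  simp [BForm.code, hL, hL', Sym.eval]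

lemma proj_disj {φ ψ : (P → Bool) → BForm} (h : Proj φ) (h' : Proj ψ) :
    Proj (fun θ => .disj (φ θ) (ψ θ)) := by
  obtain ⟨L, hL⟩ := h
  obtain ⟨L', hL'⟩ := h'
  refine ⟨[.c true, .c true, .c false] ++ (L ++ L'), fun θ => ?_⟩
  simp [BForm.code, hL, hL', Sym.eval]

lemma proj_tree : ∀ (k : ℕ) (f : ℕ → P), Proj (fun θ : P → Bool => tree k (fun i => θ (f i)))
  | 0, f => by
    have := proj_leaf (f 0) false
    simpa [tree] using this
  | k + 1, f => by
    simp only [tree]
    exact proj_disj (proj_conj (proj_const _) (proj_tree k (fun i => f (i + 2 ^ k))))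
      (proj_conj (proj_const _) (proj_tree k f))

/-- a chain of disjunctions of constants -/
def orc (c : ℕ → Bool) : ℕ → BForm
  | 0 => leaf false
  | m + 1 => .disj (leaf (c m)) (orc c m)

/-- a chain of conjunctions of negated constants -/
def andc (c : ℕ → Bool) : ℕ → BForm
  | 0 => leaf true
  | m + 1 => .conj (leaf (!c m)) (andc c m)

/-- the value of the chain -/
def orv (c : ℕ → Bool) : ℕ → Bool
  | 0 => false
  | m + 1 => c m || orv c m

lemma eval_orc (v : ℕ → Bool) (c : ℕ → Bool) : ∀ m, (orc c m).eval v = orv c m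
  | 0 => eval_leaf v _
  | m + 1 => by simp [orc, BForm.eval, eval_leaf, orv, eval_orc v c m]

lemma eval_andc (v : ℕ → Bool) (c : ℕ → Bool) : ∀ m, (andc c m).eval v = !orv c m
  | 0 => eval_leaf v _
  | m + 1 => by simp [andc, BForm.eval, eval_leaf, orv, eval_andc v c m]

lemma length_orc (c : ℕ → Bool) : ∀ m, (orc c m).code.length = 12 + 15 * m
  | 0 => length_leaf _
  | m + 1 => by rw [orc, length_disj, length_leaf, length_orc c m]; ring

lemma length_andc (c : ℕ → Bool) : ∀ m, (andc c m).code.length = 12 + 15 * m
  | 0 => length_leaf _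
  | m + 1 => by rw [andc, length_conj, length_leaf, length_andc c m]; ring

lemma orv_single (i p : ℕ) (b : Bool) (hi : i < p) :
    orv (fun i' => if i' = i then b else false) p = b := by
  have h : ∀ m, orv (fun i' => if i' = i then b else false) m = if i < m then b else false := by
    intro m
    induction m with
    | zero => simp [orv]
    | succ m ih =>
      simp only [orv, ih]
      by_cases h1 : m = i
      · subst h1; simp
      · by_cases h2 : i < m
        · simp [h1, h2, Nat.lt_succ_of_lt h2]
        · have : ¬ i < m + 1 := by omega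
          simp [h1, h2, this]
  rw [h p, if_pos hi]

/-- `y_j` equals the disjunction of `c` -/
def chk1 (j p : ℕ) (c : ℕ → Bool) : BForm :=
  .disj (.conj (.var j) (orc c p)) (.conj (.neg (.var j)) (andc c p))

/-- all `y_j`, `j < K`, are as prescribed by `s` -/
def chk (s : ℕ × ℕ → Bool) (p : ℕ) : ℕ → BForm
  | 0 => leaf true
  | j + 1 => .conj (chk1 j p (fun i => s (i, j))) (chk s p j)

lemma eval_chk1 (v : ℕ → Bool) (j p : ℕ) (c : ℕ → Bool) :
    (chk1 j p c).eval v = true ↔ v j = orv c p := by
  simp only [chk1, BForm.eval, eval_orc, eval_andc]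
  cases v j <;> cases orv c p <;> simp

lemma eval_chk (v : ℕ → Bool) (s : ℕ × ℕ → Bool) (p : ℕ) : ∀ K, (chk s p K).eval v = true ↔
    ∀ j < K, v j = orv (fun i => s (i, j)) p
  | 0 => by simp [chk, eval_leaf]
  | K + 1 => by
    simp only [chk, BForm.eval, Bool.and_eq_true, eval_chk1, eval_chk v s p K]
    constructor
    · rintro ⟨h1, h2⟩ j hj
      rcases Nat.lt_succ_iff_lt_or_eq.1 hj with h | rfl
      · exact h2 j h
      · exact h1
    · intro h
      exact ⟨h K (by omega), fun j hj => h j (by omega)⟩

/-- length of the checking formula -/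
def lenC (p : ℕ) : ℕ → ℕ
  | 0 => 12
  | j + 1 => lenC p j + 45 + 6 * (encodeNat j).length + 30 * p

lemma length_chk (s : ℕ × ℕ → Bool) (p : ℕ) : ∀ K, (chk s p K).code.length = lenC p K
  | 0 => length_leaf _
  | j + 1 => by
    simp only [chk, chk1, length_conj, length_disj, length_neg, length_var, length_orc,
      length_andc, length_chk s p j, lenC]
    ring

lemma lenC_dvd (p : ℕ) : ∀ K, 3 ∣ lenC p K
  | 0 => by norm_num [lenC]
  | j + 1 => by
    have := lenC_dvd p j
    simp only [lenC]
    omega

lemma lenC_le (p : ℕ) : ∀ K, lenC p K ≤ 12 + K * (51 + 6 * K + 30 * p)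
  | 0 => by norm_num [lenC]
  | j + 1 => by
    have h1 := lenC_le p j
    have h2 := encode_length_le j
    simp only [lenC]
    nlinarith

/-- the formula -/
def psi (K k p : ℕ) (θ : ℕ ⊕ (ℕ × ℕ) → Bool) : BForm :=
  .conj (tree K (fun i => θ (.inl i))) (.conj (pad k true) (chk (fun ij => θ (.inr ij)) p K))

/-- the value of the table at the chosen place -/
def look (K p : ℕ) (θ : ℕ ⊕ (ℕ × ℕ) → Bool) : Bool :=
  θ (.inl (idx (fun j => orv (fun i => θ (.inr (i, j))) p) K))

lemma psi_sat (K k p : ℕ) (θ : ℕ ⊕ (ℕ × ℕ) → Bool) :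
    (psi K k p θ).code ∈ SAT ↔ look K p θ = true := by
  constructor
  · rintro ⟨φ, hφ, v, hv⟩
    rw [code_injective hφ] at hv
    simp only [psi, BForm.eval, Bool.and_eq_true, eval_tree, eval_pad, eval_chk] at hv
    obtain ⟨h1, -, h2⟩ := hv
    unfold look
    rw [← idx_congr h2]
    exact h1
  · intro h
    refine ⟨_, rfl, fun j => orv (fun i => θ (.inr (i, j))) p, ?_⟩
    simp only [psi, BForm.eval, Bool.and_eq_true, eval_tree, eval_pad, eval_chk]
    exact ⟨h, trivial, fun j _ => trivial⟩

lemma proj_psi (K k p : ℕ) : Proj (psi K k p) := by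
  have horc : ∀ (j m : ℕ), Proj (fun θ : ℕ ⊕ (ℕ × ℕ) → Bool =>
      orc (fun i => θ (.inr (i, j))) m) := by
    intro j m
    induction m with
    | zero => exact proj_const _
    | succ m ih =>
      simp only [orc]
      have := proj_leaf (P := ℕ ⊕ (ℕ × ℕ)) (.inr (m, j)) false
      simp only [Bool.false_xor] at this
      exact proj_disj this ih
  have handc : ∀ (j m : ℕ), Proj (fun θ : ℕ ⊕ (ℕ × ℕ) → Bool =>
      andc (fun i => θ (.inr (i, j))) m) := by
    intro j m
    induction m with
    | zero => exact proj_const _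
    | succ m ih =>
      simp only [andc]
      have := proj_leaf (P := ℕ ⊕ (ℕ × ℕ)) (.inr (m, j)) true
      simp only [Bool.true_xor] at this
      exact proj_conj this ih
  have hchk : ∀ j, Proj (fun θ : ℕ ⊕ (ℕ × ℕ) → Bool => chk (fun ij => θ (.inr ij)) p j) := by
    intro j
    induction j with
    | zero => exact proj_const _
    | succ j ih =>
      simp only [chk, chk1]
      exact proj_conj (proj_disj (proj_conj (proj_const _) (horc j p))
        (proj_conj (proj_const _) (handc j p))) ih
  exact proj_conj (proj_tree K _) (proj_conj (proj_const _) (hchk K))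

lemma length_psi (K k p : ℕ) (θ : ℕ ⊕ (ℕ × ℕ) → Bool) :
    (psi K k p θ).code.length = 3 + (lenT K + (3 + ((12 + 3 * k) + lenC p K))) := by
  rw [psi, length_conj, length_conj, length_tree, length_pad, length_chk]

/-- substitution of constants and literals -/
def Fm.sub {α P : Type} (σ : α → Sym P) : Fm α → Fm P
  | .const b => .const b
  | .var a => match σ a with
    | .c b => .const b
    | .l p n => .gate (fun x _ => xor n x) (.var p) (.const false)
  | .gate f l r => .gate f (l.sub σ) (r.sub σ)

lemma eval_sub {α P : Type} (σ : α → Sym P) (θ : P → Bool) : ∀ F : Fm α,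
    (F.sub σ).eval θ = F.eval (fun a => (σ a).eval θ)
  | .const _ => rfl
  | .var a => by
    simp only [Fm.sub, Fm.eval]
    cases σ a <;> simp [Fm.eval, Sym.eval]
  | .gate f l r => by simp only [Fm.sub, Fm.eval, eval_sub σ θ l, eval_sub σ θ r]

lemma size_sub {α P : Type} (σ : α → Sym P) : ∀ F : Fm α, (F.sub σ).size ≤ F.size
  | .const _ => le_rfl
  | .var a => by
    simp only [Fm.sub, Fm.size]
    cases σ a <;> simp [Fm.size]
  | .gate f l r => add_le_add (size_sub σ l) (size_sub σ r)

/-- the variables of the selector number `i` -/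
def blk (i : ℕ) : Set (ℕ ⊕ (ℕ × ℕ)) := {x | ∃ j, x = .inr (i, j)}

/-- Formulas for SAT restricted to one length. -/
theorem formula_count {S : Set (List Bool)} {n K k p : ℕ} (hK : 1 ≤ K)
    (hS : ∀ z : List Bool, z.length = n → (z ∈ S ↔ z ∈ SAT))
    (hn : n = 3 + (lenT K + (3 + ((12 + 3 * k) + lenC p K))))
    (F : Fm ℕ) (hF : F.Decides S n) : p * 2 ^ K ≤ 4 * F.size := by
  classical
  obtain ⟨L, hL⟩ := proj_psi K k p
  set F' : Fm (ℕ ⊕ (ℕ × ℕ)) := F.sub (fun i => L.getD i (.c false)) with hF'
  have hev : ∀ θ, F'.eval θ = look K p θ := by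
    intro θ
    have h1 : F'.eval θ = F.eval (fun i => ((psi K k p θ).code).getD i false) := by
      rw [hF', eval_sub, hL θ]
      congr 1
      funext i
      simp only [List.getD_eq_getElem?_getD, List.getElem?_map]
      cases L[i]? <;> simp [Sym.eval]
    have h2 : (psi K k p θ).code.length = n := by rw [length_psi, hn]
    have h3 := hF _ h2
    rw [hS _ h2, psi_sat, ← h1] at h3
    cases ha : F'.eval θ <;> cases hb : look K p θ <;> simp_all
  have hblk : ∀ i < p, 2 ^ K + 2 ≤ 4 * F'.leaves (blk i) := by
    intro i hi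
    refine many_leaves (blk i) F' (2 ^ K) ?_
      (fun W x => match x with
        | .inl r => if h : r < 2 ^ K then W ⟨r, h⟩ else false
        | .inr _ => false) ?_
    · calc 2 = 2 ^ 1 := by norm_num
        _ ≤ 2 ^ K := Nat.pow_le_pow_right (by norm_num) hK
    · intro W W' hWW
      funext a
      obtain ⟨v, hv⟩ := exists_idx K a.1 a.2
      have key : ∀ W : Fin (2 ^ K) → Bool, F'.eval (mix (blk i)
          (fun x => match x with
            | .inl _ => false
            | .inr ij => v ij.2)
          (fun x => match x with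
            | .inl r => if h : r < 2 ^ K then W ⟨r, h⟩ else false
            | .inr _ => false)) = W a := by
        intro W
        rw [hev, look]
        have h1 : ∀ j, (fun i' => mix (blk i)
          (fun x => match x with
            | .inl _ => false
            | .inr ij => v ij.2)
          (fun x => match x with
            | .inl r => if h : r < 2 ^ K then W ⟨r, h⟩ else false
            | .inr _ => false) (Sum.inr (i', j))) = fun i' => if i' = i then v j else false := by
          intro j
          funext i'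
          by_cases h : i' = i
          · subst h
            have : (Sum.inr (i', j) : ℕ ⊕ (ℕ × ℕ)) ∈ blk i' := ⟨j, rfl⟩
            simp [mix, this]
          · have : (Sum.inr (i', j) : ℕ ⊕ (ℕ × ℕ)) ∉ blk i := by
              rintro ⟨j', hj'⟩
              simp only [Sum.inr.injEq, Prod.mk.injEq] at hj'
              exact h hj'.1
            simp [mix, this, h]
        have h2 : ∀ r, (Sum.inl r : ℕ ⊕ (ℕ × ℕ)) ∉ blk i := by
          rintro r ⟨j', hj'⟩
          simp at hj'
        simp only [h1, orv_single i p _ hi]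
        rw [show (fun j => v j) = v from rfl, hv]
        simp [mix, h2]
      have := congrFun hWW (fun x => match x with
            | .inl _ => false
            | .inr ij => v ij.2)
      simp only at this
      rw [key W, key W'] at this
      exact this
  have hsum := sum_leaves (Finset.range p) blk (by
    intro i _ j _ hij
    rw [Set.disjoint_left]
    rintro x ⟨a, rfl⟩ ⟨b, hb⟩
    simp only [Sum.inr.injEq, Prod.mk.injEq] at hb
    exact hij hb.1) F'
  have h4 : ∑ i ∈ Finset.range p, (2 ^ K) ≤ ∑ i ∈ Finset.range p, 4 * F'.leaves (blk i) :=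
    Finset.sum_le_sum fun i hi => by have := hblk i (Finset.mem_range.1 hi); omega
  rw [Finset.sum_const, Finset.card_range, smul_eq_mul, ← Finset.mul_sum] at h4
  have h5 := size_sub (fun i => L.getD i (.c false)) F
  rw [← hF'] at h5
  omega

end Pool.Agent.Helper5.TS
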