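import Pool.Agent.Helper5.TS.Cross

/-! Sets with few words have cheap machines. -/

set_option autoImplicit false

namespace Pool.Agent.Helper5.TS

/-- the prefixes of the words of length `n` in `F` -/
def Pref (F : Set (List Bool)) (n : ℕ) : Set (List Bool) :=
  {p | ∃ w ∈ F, w.length = n ∧ p <+: w}

open Classical in
/-- the machine which reads the word once and compares it with the words in `F` -/
noncomputable def trieM (F : Set (List Bool)) (n : ℕ) :
    Machine (Option Bool) (Option (Pref F n)) where
  step := fun q a => match q, a with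
    | some p, some b => if h : p.1 ++ [b] ∈ Pref F n then (some ⟨p.1 ++ [b], h⟩, some b, 1)
        else (none, some b, 1)
    | _, a => (none, a, 0)
  halt := fun q => match q with
    | some p => if p.1.length = n then some true else none
    | none => some false
  start := if h : [] ∈ Pref F n then some ⟨[], h⟩ else none
  blank := none
  inp := some

lemma trie_run (F : Set (List Bool)) (n : ℕ) (w : List Bool) (hw : w.length = n) :
    ∀ i, i ≤ n →
      (∃ h : w.take i ∈ Pref F n, (trieM F n).next^[i] ((trieM F n).init w) =
        ⟨some ⟨w.take i, h⟩, (i : ℤ), ((trieM F n).init w).tape⟩) ∨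
      (w.take i ∉ Pref F n ∧ ((trieM F n).next^[i] ((trieM F n).init w)).q = none) := by
  classical
  intro i
  induction i with
  | zero =>
    intro _
    by_cases h : [] ∈ Pref F n
    · left
      refine ⟨by simpa using h, ?_⟩
      simp [Machine.init, trieM, h]
    · right
      refine ⟨by simpa using h, ?_⟩
      simp [Machine.init, trieM, h]
  | succ i ih =>
    intro hi
    have hi' : i < w.length := by omega
    have htake : w.take (i + 1) = w.take i ++ [w[i]] := by
      rw [List.take_add_one, List.getElem?_eq_getElem hi']; rfl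
    rcases ih (by omega) with ⟨h, he⟩ | ⟨h, he⟩
    · have htape : ((trieM F n).init w).tape (i : ℤ) = some w[i] := by
        simp [Machine.init, trieM, hi']
      have hhalt : (trieM F n).halt (some ⟨w.take i, h⟩) = none := by
        simp only [trieM, List.length_take]
        rw [if_neg (by omega)]
      rw [Function.iterate_succ_apply', he, htake]
      by_cases h' : w.take i ++ [w[i]] ∈ Pref F n
      · left
        refine ⟨h', ?_⟩
        have hact : (trieM F n).act (some ⟨w.take i, h⟩) (some w[i]) =
            (some ⟨w.take i ++ [w[i]], h'⟩, some w[i], 1) := by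
          simp only [Machine.act, hhalt]
          simp only [trieM]
          rw [dif_pos h']
        simp only [Machine.next, htape, hact]
        refine congr (congr (congrArg Conf.mk rfl) (by simp)) ?_
        rw [← htape, Function.update_eq_self]
      · right
        refine ⟨h', ?_⟩
        have hact : (trieM F n).act (some ⟨w.take i, h⟩) (some w[i]) =
            (none, some w[i], 1) := by
          simp only [Machine.act, hhalt]
          simp only [trieM]
          rw [dif_neg h']
        simp only [Machine.next, htape, hact]
    · right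
      constructor
      · rintro ⟨x, hx, hxn, hpre⟩
        refine h ⟨x, hx, hxn, ?_⟩
        rw [htake] at hpre
        exact (List.prefix_append _ _).trans hpre
      · rw [Function.iterate_succ_apply', halt_stable (a := false)]
        · exact he
        · rw [he]; rfl

lemma trie_decides (F : Set (List Bool)) (n : ℕ) : (trieM F n).Decides F n n := by
  classical
  intro w hw
  have hmem : w ∈ Pref F n ↔ w ∈ F := by
    constructor
    · rintro ⟨x, hx, hxn, hpre⟩
      rwa [hpre.eq_of_length (by omega)]
    · intro h
      exact ⟨w, h, hw, List.prefix_refl _⟩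
  have htw : w.take n = w := by rw [← hw]; exact List.take_length
  rcases trie_run F n w hw n le_rfl with ⟨h, he⟩ | ⟨h, he⟩
  · refine ⟨true, ?_, ?_⟩
    · rw [he]
      simp only [trieM, List.length_take]
      rw [if_pos (by omega)]
    · rw [htw] at h
      simpa using hmem.1 h
  · refine ⟨false, ?_, ?_⟩
    · rw [he]; rfl
    · rw [htw, hmem] at h
      simpa using h

lemma finite_words (F : Set (List Bool)) (n : ℕ) : {w : List Bool | w ∈ F ∧ w.length = n}.Finite :=
  (List.finite_length_eq Bool n).subset fun _ hw => hw.2

lemma finite_pref (F : Set (List Bool)) (n : ℕ) : (Pref F n).Finite := by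
  refine (List.finite_length_le Bool n).subset ?_
  rintro p ⟨w, _, hwn, hp⟩
  have := hp.length_le
  simp only [Set.mem_ofPred_eq]
  omega

lemma card_pref (F : Set (List Bool)) (n : ℕ) :
    (Pref F n).ncard ≤ {w : List Bool | w ∈ F ∧ w.length = n}.ncard * (n + 1) := by
  have hsub : Pref F n ⊆ (fun x : List Bool × ℕ => x.1.take x.2) ''
      ({w : List Bool | w ∈ F ∧ w.length = n} ×ˢ ((Finset.range (n + 1) : Finset ℕ) : Set ℕ)) := by
    rintro p ⟨w, hw, hwn, hp⟩
    have := hp.length_le
    refine ⟨(w, p.length), ⟨⟨hw, hwn⟩, ?_⟩, ?_⟩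
    · simp; omega
    · exact (List.prefix_iff_eq_take.1 hp).symm
  have hfin : ({w : List Bool | w ∈ F ∧ w.length = n} ×ˢ
      ((Finset.range (n + 1) : Finset ℕ) : Set ℕ)).Finite :=
    (finite_words F n).prod (Finset.finite_toSet _)
  calc (Pref F n).ncard ≤ _ := Set.ncard_le_ncard hsub (hfin.image _)
    _ ≤ _ := Set.ncard_image_le hfin
    _ = _ := by rw [Set.ncard_prod, Set.ncard_coe_finset, Finset.card_range]

/-- A set with at most `2 ^ (c + 1)` words of length `n` is decided on these words within `n` steps
by a machine with fewer than `2 ^ (c + log (n + 1) + 3)` states. -/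
theorem trie (F : Set (List Bool)) (n c : ℕ)
    (hF : {w : List Bool | w ∈ F ∧ w.length = n}.ncard ≤ 2 ^ (c + 1)) :
    ∃ (Q : Type) (_ : Fintype Q) (M : Machine (Option Bool) Q),
      Fintype.card Q < 2 ^ (c + Nat.clog 2 (n + 1) + 2) ∧ M.Decides F n n := by
  classical
  have : Finite (Pref F n) := (finite_pref F n).to_subtype
  have : Fintype (Pref F n) := Fintype.ofFinite _
  refine ⟨Option (Pref F n), inferInstance, trieM F n, ?_, trie_decides F n⟩
  rw [Fintype.card_option, ← Nat.card_eq_fintype_card, Nat.card_coe_set_eq]
  have h1 := card_pref F n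
  have h2 : n + 1 ≤ 2 ^ Nat.clog 2 (n + 1) := Nat.le_pow_clog (by norm_num) _
  have h3 : (Pref F n).ncard ≤ 2 ^ (c + 1) * 2 ^ Nat.clog 2 (n + 1) :=
    h1.trans (Nat.mul_le_mul hF h2)
  have h4 : 2 ^ (c + Nat.clog 2 (n + 1) + 2) = 2 * (2 ^ (c + 1) * 2 ^ Nat.clog 2 (n + 1)) := by
    rw [← pow_add, ← pow_succ']; congr 1; ring
  have h5 : 2 ≤ 2 ^ (c + 1) * 2 ^ Nat.clog 2 (n + 1) := by
    have : 2 ≤ 2 ^ (c + 1) := by
      calc 2 = 2 ^ 1 := by norm_num
        _ ≤ 2 ^ (c + 1) := Nat.pow_le_pow_right (by norm_num) (by omega)
    exact this.trans (Nat.le_mul_of_pos_right _ (by positivity))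
  omega

end Pool.Agent.Helper5.TS
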