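import Pool.Agent.Helper70.AC.Rig
import Pool.Agent.Helper70.AC.Sparse
import Pool.Agent.Helper48.ExistsUniversal
import Pool.Agent.Helper5.TS.Count
import Pool.Agent.Helper5.TS.Trie

/-!
Unconditional inseparability of the Kolmogorov-simple part of SAT from the complement of SAT by
polynomial time sets whose product of time and space, on machines with one input tape, is small.
The definitions used by the statement are in `Pool/Agent/Helper72/Defs.lean` (formulas and their
binary code, `SAT`, `InP`, `IsUniversal`, `KClass`) and in `Pool/Agent/Helper5/TS/Defs.lean`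
(`Machine`, `Conf`, `Machine.next`, `Machine.init`, `Machine.Decides`).
-/

set_option autoImplicit false

namespace Pool.Agent.Results.MP_359409_lc.TimeSpace

open Pool.Agent.Helper72 Pool.Agent.Helper70.AC Pool.Agent.Helper5.TS Turing Filter

/-- Let `U` be a universal machine, `g(n) - log log log n → ∞`, `G` eventually above every
polynomial, `K = K[g(n), G(n)]`.
(1) Let `S` be a polynomial time set which separates `K ∩ SAT` from `K \ SAT` (for instance from
the complement of `SAT`). For all large `n` divisible by `3`, every machine `M` with one tape and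
fewer than `2 ^ s` states, which may be built for this `n` only, and which decides within `T` steps
for every word of length `n` whether it is in `S`, satisfies `T * s ≥ n ^ 2 / 10 ^ 4`.
(2) For every `n` there is such a machine for `K ∩ SAT` itself with `T = n` and
`s = g(n) + ⌈log (n + 1)⌉ + 2`. -/
theorem result (U : TM2ComputableAux Bool Bool) (hU : IsUniversal U) (g G : ℕ → ℕ)
    (hg : ∀ c, ∀ᶠ n in atTop, Nat.log 2 (Nat.log 2 (Nat.log 2 n)) + c ≤ g n)
    (hG : ∀ k, ∀ᶠ n in atTop, n ^ k ≤ G n) :
    (∀ S, InP S → KClass U g G ∩ SAT ⊆ S → S ∩ (KClass U g G ∩ SATᶜ) = ∅ →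
      ∃ n0, ∀ n ≥ n0, 3 ∣ n → ∀ (Γ Q : Type) [Fintype Q] (M : Machine Γ Q) (s T : ℕ),
        Fintype.card Q < 2 ^ s → M.Decides S n T → n ^ 2 ≤ 10 ^ 4 * (T * s)) ∧
    (∀ n, ∃ (Γ Q : Type) (_ : Fintype Q) (M : Machine Γ Q),
      Fintype.card Q < 2 ^ (g n + Nat.clog 2 (n + 1) + 2) ∧
      M.Decides (KClass U g G ∩ SAT) n n) := by
  refine ⟨fun S hS hKS hSK => ?_, fun n => ?_⟩
  · obtain ⟨n0, hn0⟩ : ∃ n0, ∀ z : List Bool, n0 ≤ z.length → (z ∈ S ↔ z ∈ SAT) := by
      refine rigid hU hg hG hS fun x hx => ⟨fun hxS => ?_, fun hxS => hKS ⟨hx, hxS⟩⟩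
      by_contra hcon
      have : x ∈ S ∩ (KClass U g G ∩ SATᶜ) := ⟨hxS, hx, hcon⟩
      rw [hSK] at this
      exact this
    refine ⟨n0 + 100000, fun n hn h3 Γ Q _ M s T hs hM => ?_⟩
    exact sat_hard M (by omega) h3 (fun z hz => hn0 z (by omega)) hs hM
  · obtain ⟨Q, hQ, M, h1, h2⟩ := trie (KClass U g G ∩ SAT) n (g n) (card_KClass U g G n)
    exact ⟨Option Bool, Q, hQ, M, h1, h2⟩

/-- The instance asked about, `g(n) = ⌈log2 n⌉` and `G(n) = n ^ ⌈log2 n⌉`: a polynomial time set
`S` which contains `K ∩ SAT` and is disjoint from the complement of `SAT` cannot be decided on the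
words of length `n` by machines with `2 ^ s - 1` states in `T` steps if `T * s < n ^ 2 / 10 ^ 4`. -/
theorem question_one (U : TM2ComputableAux Bool Bool) (hU : IsUniversal U) (S : Set (List Bool))
    (hS : InP S) (h1 : KClass U (Nat.clog 2) (fun n => n ^ Nat.clog 2 n) ∩ SAT ⊆ S)
    (h2 : S ∩ SATᶜ = ∅) :
    ∃ n0, ∀ n ≥ n0, 3 ∣ n → ∀ (Γ Q : Type) [Fintype Q] (M : Machine Γ Q) (s T : ℕ),
        Fintype.card Q < 2 ^ s → M.Decides S n T → n ^ 2 ≤ 10 ^ 4 * (T * s) := by
  have hlog : Tendsto (fun n => Nat.log 2 n) atTop atTop := by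
    refine tendsto_atTop_atTop.2 fun b => ⟨2 ^ b, fun a ha => ?_⟩
    exact Nat.le_log_of_pow_le (by norm_num) ha
  have hr := result U hU (Nat.clog 2) (fun n => n ^ Nat.clog 2 n) (fun c => ?_) (fun k => ?_)
  · refine hr.1 S hS h1 ?_
    rw [← Set.subset_empty_iff] at h2 ⊢
    exact (Set.inter_subset_inter_right S Set.inter_subset_right).trans h2
  · filter_upwards [hlog.eventually (hlog.eventually_ge_atTop (c + 2)),
      eventually_ge_atTop 2] with n hn h2
    set m := Nat.log 2 (Nat.log 2 n) with hm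
    have h0 : Nat.log 2 n ≠ 0 := by
      intro h; rw [hm, h] at hn; simp at hn
    have h1 : 2 ^ m ≤ Nat.log 2 n := Nat.pow_log_le_self 2 h0
    have h3 : Nat.log 2 n ≤ Nat.clog 2 n := Nat.log_le_clog 2 n
    have h4 : Nat.log 2 m + c ≤ 2 ^ m := by
      have h5 : Nat.log 2 m ≤ m := Nat.log_le_self _ _
      have h6 : ∀ k, 2 ≤ k → 2 * k ≤ 2 ^ k := by
        intro k hk
        induction k, hk using Nat.le_induction with
        | base => norm_num
        | succ k hk ih => rw [pow_succ]; omega
      have := h6 m (by omega)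
      omega
    omega
  · filter_upwards [hlog.eventually_ge_atTop k, eventually_ge_atTop 1] with n hn h1
    exact Nat.pow_le_pow_right h1 (hn.trans (Nat.log_le_clog 2 n))

/-- Universal machines in the sense used above exist. -/
theorem universal_exists : ∃ U : TM2ComputableAux Bool Bool, IsUniversal U :=
  Pool.Agent.Helper48.exists_universal

end Pool.Agent.Results.MP_359409_lc.TimeSpace
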